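import Pool.Agent.PT74.BeltA

set_option autoImplicit false
set_option linter.unusedSectionVars false

/-!
# PT74/Belt: the product of the polygon and the box is in the polytope

`prod_sub`: `hrepF`: let `c` be a facet normal, `c = a u + b v + Σ γ i W i` (`coords_span`, `box_span`),
`a u + b v = r ww u v t`, `r ≥ 0`; by `belt_image` there is `z ∈ face P (ww u v t)` with `⟪W i, z⟫` the upper bound
`spt (face P u) (W i)` if `γ i ≥ 0` and the lower bound `-spt (face P u) (-W i)` if `γ i < 0` (the bounds are in the box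
because of `x`); `⟪c, x⟫ ≤ ⟪c, z⟫ ≤ spt P c`.
-/

namespace Pool.PT74

open Set Filter Topology MeasureTheory
open scoped RealInnerProductSpace ENNReal
open Pool.PT56

variable {E : Type} [NormedAddCommGroup E] [InnerProductSpace ℝ E] [FiniteDimensional ℝ E]
  [MeasurableSpace E] [BorelSpace E]

/-- polar coordinates in the plane of `u` and `v` -/
private theorem polar (u v : E) (a b : ℝ) :
    ∃ r t : ℝ, 0 ≤ r ∧ a • u + b • v = r • ww u v t := by
  refine ⟨‖(⟨a, b⟩ : ℂ)‖, Complex.arg ⟨a, b⟩, norm_nonneg _, ?_⟩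
  have h1 := Complex.norm_mul_cos_arg ⟨a, b⟩
  have h2 := Complex.norm_mul_sin_arg ⟨a, b⟩
  unfold ww
  rw [smul_add, smul_smul, smul_smul, h1, h2]

theorem prod_sub {n : ℕ} (hn : Module.finrank ℝ E = n + 2) {P : Set E} (hP : Polytope P)
    (hT : Tiles P) {W : Fin n → E} (hW : Cov P W) {u : E} (hu : Facet P u)
    (hu' : ¬ Facet P (-u)) {v : E} (hv : Free P u v) {x : E}
    (h1 : ∀ t, ⟪ww u v t, x⟫ ≤ spt P (ww u v t)) (h2 : ∀ i, ⟪W i, x⟫ ≤ spt (face P u) (W i))
    (h3 : ∀ i, ⟪-W i, x⟫ ≤ spt (face P u) (-W i)) : x ∈ P := by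
  have hc := hP.compact
  obtain ⟨U, hU1, hU2⟩ := hrepF hP
  rw [hU2]
  intro c _
  obtain ⟨a, b, γ, hcz⟩ := coords_span (box_span hP hT hW hu hu' hv) c
  obtain ⟨r, t, hr, hrt⟩ := polar u v a b
  rw [hrt] at hcz
  -- the corner of the box
  obtain ⟨z, hz, hzW⟩ := (belt_image hn hP hT hW hu hu' hv t
    (fun i => if 0 ≤ γ i then spt (face P u) (W i) else -spt (face P u) (-W i))).mpr (by
      intro i
      have h4 := h2 i
      have h5 := h3 i
      rw [inner_neg_left] at h5
      by_cases hγ : 0 ≤ γ i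
      · simp only [if_pos hγ]
        exact ⟨le_rfl, by linarith⟩
      · simp only [if_neg hγ]
        exact ⟨by linarith, by linarith⟩)
  have hzf := (mem_face_iff hc).mp hz
  have key : ⟪c, x⟫ ≤ ⟪c, z⟫ := by
    rw [hcz, inner_add_left, inner_add_left, inner_smul_left, inner_smul_left, sum_inner,
      sum_inner]
    refine add_le_add ?_ (Finset.sum_le_sum fun i _ => ?_)
    · simp only [conj_trivial]
      rw [hzf.2]
      exact mul_le_mul_of_nonneg_left (h1 t) hr
    · rw [inner_smul_left, inner_smul_left, hzW i]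
      simp only [conj_trivial]
      by_cases hγ : 0 ≤ γ i
      · rw [if_pos hγ]
        exact mul_le_mul_of_nonneg_left (h2 i) hγ
      · rw [if_neg hγ]
        have h5 := h3 i
        rw [inner_neg_left] at h5
        exact mul_le_mul_of_nonpos_left (by linarith) (not_le.mp hγ).le
  exact key.trans (spt_le hc hzf.1 c)

end Pool.PT74
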