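import Pool.Agent.PT74.BoxA

set_option autoImplicit false
set_option linter.unusedSectionVars false

/-!
# PT74/Box: the facets without a parallel facet are parallelotopes, span and ridges

Let `c` be a facet normal, `-c` not.
`box_span`: by `sec_normal`, `sec_cases` every facet normal `z` of `secQ P c` is `± v` or in `span {c, W i}` for some `i`,
so `x` is orthogonal to all `z`: `recession` for `secQ P c` (`secQ_polytope`), as in `facts`, field `span`, PT24/Facts.
`box_ridge`: otherwise (by `gv_symm_of_single` for the sign of `b`) no `z` is `a c + b W i` with `b ≠ 0`; then every `z` is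
`± v` or in `span {c, W j}`, `j ≠ i`; a vector `x ≠ 0` orthogonal to the `n + 1` vectors `c`, `v`, `W j` (`j ≠ i`)
contradicts `recession`.
`exists_free`: otherwise every facet normal `z` of `secQ P c` has some `w`, `± w` facet normals, in the plane
`span {c, z}` (`z` would be free), so `z ∈ span {c, W i | i}` (as in `sec_cases`); a vector `x ≠ 0` orthogonal to
these `n + 1` vectors contradicts `recession`.
-/

namespace Pool.PT74

open Set Filter Topology MeasureTheory
open scoped RealInnerProductSpace ENNReal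
open Pool.PT56

variable {E : Type} [NormedAddCommGroup E] [InnerProductSpace ℝ E] [FiniteDimensional ℝ E]
  [MeasurableSpace E] [BorelSpace E]

/-- a direction of the hyperplane has a ridge normal on its positive side -/
private theorem box_pos {P : Set E} (hP : Polytope P) {c : E} (hc : Facet P c) {x : E}
    (hx : ⟪c, x⟫ = 0) (hx0 : x ≠ 0) :
    ∃ z : E, ‖z‖ = 1 ∧ ⟪c, z⟫ = 0 ∧ gv P c z ≠ 0 ∧ 0 < ⟪z, x⟫ := by
  by_contra hcon
  push Not at hcon
  have h1 : (⟨x, PT57.mem_perp_iff.mpr hx⟩ : (ℝ ∙ c)ᗮ) = 0 := by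
    apply recession (secQ_polytope hP hc)
    intro z hz
    obtain ⟨h1, h2, h3⟩ := sec_normal hP hc hz
    exact hcon z h1 h2 h3
  exact hx0 (congrArg Subtype.val h1)

/-- there is a vector orthogonal to `n + 1` vectors -/
private theorem box_orth {n : ℕ} (hn : Module.finrank ℝ E = n + 2) (c : E) (V : Fin n → E) :
    ∃ x : E, x ≠ 0 ∧ ⟪c, x⟫ = 0 ∧ ∀ i, ⟪V i, x⟫ = 0 := by
  let f : E →ₗ[ℝ] ℝ × (Fin n → ℝ) :=
    (innerSL ℝ c : E →L[ℝ] ℝ).toLinearMap.prod
      (LinearMap.pi fun i => (innerSL ℝ (V i) : E →L[ℝ] ℝ).toLinearMap)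
  have hf : LinearMap.ker f ≠ ⊥ := by
    apply LinearMap.ker_ne_bot_of_finrank_lt
    rw [hn, Module.finrank_prod, Module.finrank_fin_fun, Module.finrank_self]
    omega
  obtain ⟨x, hx, hx0⟩ := (Submodule.ne_bot_iff _).1 hf
  have hfx : f x = 0 := hx
  refine ⟨x, hx0, ?_, fun i => ?_⟩
  · have := congrArg Prod.fst hfx
    simpa [f] using this
  · have := congrFun (congrArg Prod.snd hfx) i
    simpa [f] using this

theorem box_span {n : ℕ} {P : Set E} (hP : Polytope P) (hT : Tiles P) {W : Fin n → E}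
    (hW : Cov P W) {c : E} (hc : Facet P c) (hc' : ¬ Facet P (-c)) {v : E} (hv : Free P c v) :
    ∀ x : E, ⟪c, x⟫ = 0 → ⟪v, x⟫ = 0 → (∀ i, ⟪W i, x⟫ = 0) → x = 0 := by
  intro x hcx hvx hWx
  by_contra hx0
  obtain ⟨z, hz, hcz, hg, hpos⟩ := box_pos hP hc hcx hx0
  rcases sec_cases hP hT hW hc hc' hv hz hcz hg with rfl | rfl | ⟨i, a, b, -, rfl⟩
  · rw [hvx] at hpos
    exact lt_irrefl _ hpos
  · rw [inner_neg_left, hvx, neg_zero] at hpos
    exact lt_irrefl _ hpos
  · rw [inner_add_left, real_inner_smul_left, real_inner_smul_left, hcx, hWx i, mul_zero,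
      mul_zero, add_zero] at hpos
    exact lt_irrefl _ hpos

theorem exists_free {n : ℕ} (hn : Module.finrank ℝ E = n + 2) {P : Set E} (hP : Polytope P)
    {W : Fin n → E} (hW : Cov P W) {c : E} (hc : Facet P c)
    (hc' : ¬ Facet P (-c)) : ∃ v, Free P c v := by
  by_contra hcon
  push Not at hcon
  obtain ⟨x, hx0, hcx, hWx⟩ := box_orth hn c W
  obtain ⟨z, hz, hcz, hg, hpos⟩ := box_pos hP hc hcx hx0
  have hno : ¬ NoPN P c z := fun h => hcon z ⟨hc.1, hz, hcz, hg, h⟩
  unfold NoPN at hno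
  push Not at hno
  obtain ⟨w, hw, hw1, hw2⟩ := hno
  have hwx : ⟪w, x⟫ = 0 := by
    obtain ⟨i, rfl | rfl⟩ := hW.cov w hw1 hw2
    · exact hWx i
    · rw [inner_neg_left, hWx i, neg_zero]
  obtain ⟨p, q, rfl⟩ := Submodule.mem_span_pair.1 hw
  rw [inner_add_left, real_inner_smul_left, real_inner_smul_left, hcx, mul_zero, zero_add,
    mul_eq_zero] at hwx
  rcases hwx with rfl | h
  · rw [zero_smul, add_zero] at hw1 hw2
    have h1 : |p| = 1 := by
      have := hw1.1
      rwa [norm_smul, hc.1, mul_one, Real.norm_eq_abs] at this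
    rcases (abs_eq zero_le_one).1 h1 with h2 | h2
    · rw [h2, one_smul] at hw2
      exact hc' hw2
    · rw [h2, neg_smul, one_smul] at hw1
      exact hc' hw1
  · rw [h] at hpos
    exact lt_irrefl _ hpos

theorem box_ridge {n : ℕ} (hn : Module.finrank ℝ E = n + 2) {P : Set E} (hP : Polytope P)
    (hT : Tiles P) {W : Fin n → E} (hW : Cov P W) {c : E} (hc : Facet P c)
    (hc' : ¬ Facet P (-c)) {v : E} (hv : Free P c v) (i : Fin n) :
    ∃ (z : E) (a b : ℝ), ‖z‖ = 1 ∧ ⟪c, z⟫ = 0 ∧ gv P c z ≠ 0 ∧ 0 < b ∧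
      z = a • c + b • W i := by
  by_contra hcon
  push Not at hcon
  obtain ⟨x, hx0, hcx, hVx⟩ := box_orth hn c (Function.update W i v)
  have hvx : ⟪v, x⟫ = 0 := by
    have := hVx i
    rwa [Function.update_self] at this
  have hWx : ∀ j, j ≠ i → ⟪W j, x⟫ = 0 := by
    intro j hj
    have := hVx j
    rwa [Function.update_of_ne hj] at this
  obtain ⟨z, hz, hcz, hg, hpos⟩ := box_pos hP hc hcx hx0
  rcases sec_cases hP hT hW hc hc' hv hz hcz hg with rfl | rfl | ⟨j, a, b, hb, hzab⟩
  · rw [hvx] at hpos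
    exact lt_irrefl _ hpos
  · rw [inner_neg_left, hvx, neg_zero] at hpos
    exact lt_irrefl _ hpos
  · by_cases hj : j = i
    · subst hj
      rcases lt_or_gt_of_ne hb with hb | hb
      · have hg' : gv P c (-z) ≠ 0 := by
          rwa [← gv_symm_of_single hP.compact hP.conv hP.2 hT hc.1 hz hcz hc']
        refine hcon (-z) (-a) (-b) (by rw [norm_neg, hz]) (by rw [inner_neg_right, hcz, neg_zero])
          hg' (by linarith) ?_
        rw [hzab, neg_add, neg_smul, neg_smul]
      · exact hcon z a b hz hcz hg hb hzab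
    · rw [hzab, inner_add_left, real_inner_smul_left, real_inner_smul_left, hcx, hWx j hj,
        mul_zero, mul_zero, add_zero] at hpos
      exact lt_irrefl _ hpos

end Pool.PT74
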