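import Pool.Agent.PT74.BoxA

set_option autoImplicit false
set_option linter.unusedSectionVars false

/-!
# PT74/BoxF: the facets without a parallel facet are parallelotopes, inequalities

`box_face`: `hrepF` for the polytope `secQ P c` (`secQ_polytope`) gives: `x` with `⟪c, x⟫ = spt P c` is in `face P c` iff
`⟪z, x⟫ ≤ spt (face P c) z` for all facet normals `z` of `secQ P c` (`image_secQ`).  By `sec_normal`, `sec_cases` every
such `z` is `v`, `-v` or `a c + b W i`, `b ≠ 0`; in the last case, with `w = W i` if `b > 0`, `w = -W i` if `b < 0`, the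
inequality is equivalent to `⟪w, x⟫ ≤ spt (face P c) w` on the hyperplane `⟪c, x⟫ = spt P c`.
-/

namespace Pool.PT74

open Set Filter Topology MeasureTheory
open scoped RealInnerProductSpace ENNReal
open Pool.PT56

variable {E : Type} [NormedAddCommGroup E] [InnerProductSpace ℝ E] [FiniteDimensional ℝ E]
  [MeasurableSpace E] [BorelSpace E]

private theorem le_of_comb {P : Set E} (hP : Polytope P) {c : E} {x z w : E}
    {a b : ℝ} (h1 : ⟪c, x⟫ = spt P c) (hb : 0 < b) (hz : z = a • c + b • w)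
    (hw : ⟪w, x⟫ ≤ spt (face P c) w) : ⟪z, x⟫ ≤ spt (face P c) z := by
  have hPc := hP.compact
  have hF := face_compact hPc c
  have hP0 : P.Nonempty := hP.2.mono interior_subset
  have hF0 : (face P c).Nonempty := by
    obtain ⟨p, hp, hpe⟩ := exists_spt hPc hP0 c
    exact ⟨p, (mem_face_iff hPc).2 ⟨hp, hpe⟩⟩
  obtain ⟨p, hp, hpe⟩ := exists_spt hF hF0 w
  have h2 := spt_le hF hp z
  have h3 := ((mem_face_iff hPc).1 hp).2
  have e1 : ⟪z, x⟫ = a * spt P c + b * ⟪w, x⟫ := by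
    rw [hz, inner_add_left, inner_smul_left, inner_smul_left, h1]
    rfl
  have e2 : ⟪z, p⟫ = a * spt P c + b * spt (face P c) w := by
    rw [hz, inner_add_left, inner_smul_left, inner_smul_left, h3, hpe]
    rfl
  have h4 := mul_le_mul_of_nonneg_left hw hb.le
  linarith

theorem box_face {n : ℕ} {P : Set E} (hP : Polytope P) (hT : Tiles P) {W : Fin n → E}
    (hW : Cov P W) {c : E} (hc : Facet P c) (hc' : ¬ Facet P (-c)) {v : E} (hv : Free P c v)
    {x : E} (h1 : ⟪c, x⟫ = spt P c) (h2 : ∀ i, ⟪W i, x⟫ ≤ spt (face P c) (W i))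
    (h3 : ∀ i, ⟪-W i, x⟫ ≤ spt (face P c) (-W i)) (h4 : ⟪v, x⟫ ≤ spt (face P c) v)
    (h5 : ⟪-v, x⟫ ≤ spt (face P c) (-v)) : x ∈ face P c := by
  have hPc := hP.compact
  have hcn : ‖c‖ = 1 := hc.1
  have hcc : ⟪c, c⟫ = 1 := by rw [real_inner_self_eq_norm_sq, hcn]; norm_num
  have hP0 : P.Nonempty := hP.2.mono interior_subset
  have hF := face_compact hPc c
  have hF0 : (face P c).Nonempty := by
    obtain ⟨p, hp, hpe⟩ := exists_spt hPc hP0 c
    exact ⟨p, (mem_face_iff hPc).2 ⟨hp, hpe⟩⟩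
  have hQ := secQ_compact hPc hcn
  have hy0 : ⟪c, x - spt P c • c⟫ = 0 := by
    rw [inner_sub_right, inner_smul_right, hcc, h1]
    ring
  obtain ⟨y, hy⟩ : ∃ y : (ℝ ∙ c)ᗮ, (y : E) = x - spt P c • c :=
    ⟨⟨x - spt P c • c, PT57.mem_perp_iff.mpr hy0⟩, rfl⟩
  have hxy : spt P c • c + (y : E) = x := by rw [hy]; abel
  obtain ⟨U, hU1, hU2⟩ := hrepF (secQ_polytope hP hc)
  suffices h : y ∈ secQ P c by
    have h' : spt P c • c + (y : E) ∈ face P c := h
    rwa [hxy] at h'
  rw [hU2]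
  intro z hz
  rw [hU1] at hz
  obtain ⟨hz1, hz2, hz3⟩ := sec_normal hP hc hz
  have hzc : ⟪(z : E), c⟫ = 0 := by rw [real_inner_comm]; exact hz2
  -- the inequality for the face
  have hmain : ⟪(z : E), x⟫ ≤ spt (face P c) (z : E) := by
    rcases sec_cases hP hT hW hc hc' hv hz1 hz2 hz3 with h | h | ⟨i, a, b, hb, h⟩
    · rw [h]; exact h4
    · rw [h]; exact h5
    · rcases lt_or_gt_of_ne hb with hb | hb
      · exact le_of_comb hP h1 (a := a) (b := -b) (w := -W i) (by linarith)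
          (by rw [h, smul_neg, neg_smul, neg_neg]) (h3 i)
      · exact le_of_comb hP h1 hb h (h2 i)
  obtain ⟨p, hp, hpe⟩ := exists_spt hF hF0 (z : E)
  have hp' := hp
  rw [← image_secQ hPc hcn] at hp'
  obtain ⟨q, hq, rfl⟩ := hp'
  have h6 := spt_le hQ hq z
  have e1 : ⟪(z : E), spt P c • c + (q : E)⟫ = ⟪z, q⟫ := by
    rw [inner_add_right, inner_smul_right, hzc, mul_zero, zero_add]
    rfl
  have e2 : ⟪(z : E), x⟫ = ⟪z, y⟫ := by
    rw [← hxy, inner_add_right, inner_smul_right, hzc, mul_zero, zero_add]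
    rfl
  have e3 : ⟪z, q⟫ = spt (face P c) (z : E) := e1.symm.trans hpe
  linarith

end Pool.PT74
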