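import Pool.Agent.PT74.GBase

set_option autoImplicit false
set_option linter.unusedSectionVars false

/-!
# PT74/Coord: coordinates

`u`, `v`, `W i` are `n + 2` vectors of the `(n + 2)`-dimensional space `E` and only `0` is orthogonal to all of
them.  `coords`: the map `x ↦ ((⟪u, x⟫, ⟪v, x⟫), fun i => ⟪W i, x⟫)` is injective, equal dimensions.
`coords_span`: the orthogonal complement of the span is `0`.  `coords_indep`: inner product with the preimages under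
`coords` of the standard basis vectors.
-/

namespace Pool.PT74

open Set Filter Topology
open scoped RealInnerProductSpace
open Pool.PT56

variable {E : Type} [NormedAddCommGroup E] [InnerProductSpace ℝ E] [FiniteDimensional ℝ E]

theorem coords {n : ℕ} (hn : Module.finrank ℝ E = n + 2) {u v : E} {W : Fin n → E}
    (h : ∀ x : E, ⟪u, x⟫ = 0 → ⟪v, x⟫ = 0 → (∀ i, ⟪W i, x⟫ = 0) → x = 0) :
    ∃ T : E ≃ₗ[ℝ] (ℝ × ℝ) × (Fin n → ℝ), ∀ x, T x = ((⟪u, x⟫, ⟪v, x⟫), fun i => ⟪W i, x⟫) := by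
  let f : E →ₗ[ℝ] (ℝ × ℝ) × (Fin n → ℝ) :=
    { toFun := fun x => ((⟪u, x⟫, ⟪v, x⟫), fun i => ⟪W i, x⟫)
      map_add' := by
        intro x y
        simp only [inner_add_right]
        rfl
      map_smul' := by
        intro r x
        simp only [inner_smul_right]
        rfl }
  have hf : Function.Injective f := by
    rw [injective_iff_map_eq_zero]
    intro x hx
    have hx' : ((⟪u, x⟫, ⟪v, x⟫), fun i => ⟪W i, x⟫) = ((0 : (ℝ × ℝ) × (Fin n → ℝ))) := hx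
    have h1 : (⟪u, x⟫ : ℝ) = 0 := congrArg (fun z : (ℝ × ℝ) × (Fin n → ℝ) => z.1.1) hx'
    have h2 : (⟪v, x⟫ : ℝ) = 0 := congrArg (fun z : (ℝ × ℝ) × (Fin n → ℝ) => z.1.2) hx'
    have h3 : ∀ i, (⟪W i, x⟫ : ℝ) = 0 := fun i =>
      congrArg (fun z : (ℝ × ℝ) × (Fin n → ℝ) => z.2 i) hx'
    exact h x h1 h2 h3
  have hd : Module.finrank ℝ E = Module.finrank ℝ ((ℝ × ℝ) × (Fin n → ℝ)) := by
    rw [hn]
    simp
    omega
  exact ⟨LinearEquiv.ofInjectiveOfFinrankEq f hf hd, fun x => rfl⟩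

theorem coords_span {n : ℕ} {u v : E} {W : Fin n → E}
    (h : ∀ x : E, ⟪u, x⟫ = 0 → ⟪v, x⟫ = 0 → (∀ i, ⟪W i, x⟫ = 0) → x = 0) (z : E) :
    ∃ (a b : ℝ) (c : Fin n → ℝ), z = a • u + b • v + ∑ i, c i • W i := by
  have hK : (Submodule.span ℝ ({u, v} ∪ Set.range W))ᗮ = ⊥ := by
    rw [Submodule.eq_bot_iff]
    intro x hx
    rw [Submodule.mem_orthogonal] at hx
    refine h x (hx u (Submodule.subset_span ?_)) (hx v (Submodule.subset_span ?_))
      (fun i => hx (W i) (Submodule.subset_span ?_))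
    · exact Or.inl (by simp)
    · exact Or.inl (by simp)
    · exact Or.inr ⟨i, rfl⟩
  have hT : Submodule.span ℝ ({u, v} ∪ Set.range W) = ⊤ := by
    have := Submodule.orthogonal_eq_bot_iff.mp hK
    exact this
  have hz : z ∈ Submodule.span ℝ ({u, v} ∪ Set.range W) := by rw [hT]; trivial
  rw [Submodule.span_union] at hz
  obtain ⟨y, hy, w, hw, rfl⟩ := Submodule.mem_sup.mp hz
  obtain ⟨a, b, hab⟩ := Submodule.mem_span_pair.mp hy
  obtain ⟨c, hc⟩ := (Submodule.mem_span_range_iff_exists_fun ℝ).mp hw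
  exact ⟨a, b, c, by rw [hab, hc]⟩

theorem coords_indep {n : ℕ} (hn : Module.finrank ℝ E = n + 2) {u v : E} {W : Fin n → E}
    (h : ∀ x : E, ⟪u, x⟫ = 0 → ⟪v, x⟫ = 0 → (∀ i, ⟪W i, x⟫ = 0) → x = 0) {a b : ℝ}
    {c : Fin n → ℝ} (h0 : a • u + b • v + ∑ i, c i • W i = 0) : a = 0 ∧ b = 0 ∧ ∀ i, c i = 0 := by
  obtain ⟨T, hT⟩ := coords hn h
  have key : ∀ x : E, a * ⟪u, x⟫ + b * ⟪v, x⟫ + ∑ i, c i * ⟪W i, x⟫ = 0 := by
    intro x
    have := congrArg (fun z => (⟪z, x⟫ : ℝ)) h0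
    simpa [inner_add_left, inner_smul_left, sum_inner] using this
  have key2 : ∀ (p q : ℝ) (r : Fin n → ℝ), a * p + b * q + ∑ i, c i * r i = 0 := by
    intro p q r
    have h1 := key (T.symm ((p, q), r))
    have h2 := hT (T.symm ((p, q), r))
    rw [LinearEquiv.apply_symm_apply] at h2
    have e1 : (⟪u, T.symm ((p, q), r)⟫ : ℝ) = p :=
      (congrArg (fun z : (ℝ × ℝ) × (Fin n → ℝ) => z.1.1) h2).symm
    have e2 : (⟪v, T.symm ((p, q), r)⟫ : ℝ) = q :=
      (congrArg (fun z : (ℝ × ℝ) × (Fin n → ℝ) => z.1.2) h2).symm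
    have e3 : ∀ i, (⟪W i, T.symm ((p, q), r)⟫ : ℝ) = r i := fun i =>
      (congrArg (fun z : (ℝ × ℝ) × (Fin n → ℝ) => z.2 i) h2).symm
    simpa only [e1, e2, e3] using h1
  refine ⟨by simpa using key2 1 0 0, by simpa using key2 0 1 0, fun i => ?_⟩
  have := key2 0 0 (Pi.single i 1)
  simpa [Pi.single_apply] using this

end Pool.PT74
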