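import Pool.Agent.PT74.Circ
import Pool.Agent.PT74.Coord
import Pool.Agent.PT74.Box
import Pool.Agent.PT74.BoxF

set_option autoImplicit false
set_option linter.unusedSectionVars false

/-!
# PT74/BeltA: all faces of the belt have the same image

`box_image`: for a single facet `c` the images under `x ↦ (⟪W i, x⟫)_i` of `face P c`, of `face (face P c) v` and of
`face (face P c) (-v)` are the same box: given `y` in the box take by `coords` (`box_span`) the `x` with
`⟪c, x⟫ = spt P c`, `⟪v, x⟫ = spt (face P c) v` (resp. `-spt (face P c) (-v)`), `⟪W i, x⟫ = y i`; `box_face`.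
`belt_image`: `D t` = the image of `face P (ww u v t)`.  It is locally constant: for small `e > 0`
`face P (ww u v (t + e)) = face (face P (ww u v t)) (ww' u v t)` and
`face P (ww u v (t - e)) = face (face P (ww u v t)) (-ww' u v t)` (`face_rot`, `ww_add`, `ww_sub`); if `ww u v t` is a
facet normal (`Free.rot`: single) then `box_image` for `c = ww u v t`, `v = ww' u v t`: all three have the same image;
otherwise (`facet_of_nonlevel`) `face P (ww u v t)` is in a level set of `ww' u v t` and the three faces are equal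
(`face_of_const`).  See the proof of `facC_circle` (PT56/FacC) for the argument with `IsLocallyConstant`.
-/

namespace Pool.PT74

open Set Filter Topology MeasureTheory
open scoped RealInnerProductSpace ENNReal
open Pool.PT56

variable {E : Type} [NormedAddCommGroup E] [InnerProductSpace ℝ E] [FiniteDimensional ℝ E]
  [MeasurableSpace E] [BorelSpace E]

/-- a point of the facet with given coordinates -/
private theorem beltA_ex {n : ℕ} (hn : Module.finrank ℝ E = n + 2) {P : Set E} (hP : Polytope P)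
    (hT : Tiles P) {W : Fin n → E} (hW : Cov P W) {c : E} (hc : Facet P c)
    (hc' : ¬ Facet P (-c)) {v : E} (hv : Free P c v) (y : Fin n → ℝ)
    (hy : ∀ i, y i ≤ spt (face P c) (W i) ∧ -y i ≤ spt (face P c) (-W i)) {q : ℝ}
    (hq1 : q ≤ spt (face P c) v) (hq2 : -q ≤ spt (face P c) (-v)) :
    ∃ x ∈ face P c, ⟪v, x⟫ = q ∧ ∀ i, ⟪W i, x⟫ = y i := by
  obtain ⟨T, hTT⟩ := coords hn (box_span hP hT hW hc hc' hv)
  have h2 := hTT (T.symm ((spt P c, q), y))
  rw [LinearEquiv.apply_symm_apply] at h2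
  have e1 : (⟪c, T.symm ((spt P c, q), y)⟫ : ℝ) = spt P c :=
    (congrArg (fun z : (ℝ × ℝ) × (Fin n → ℝ) => z.1.1) h2).symm
  have e2 : (⟪v, T.symm ((spt P c, q), y)⟫ : ℝ) = q :=
    (congrArg (fun z : (ℝ × ℝ) × (Fin n → ℝ) => z.1.2) h2).symm
  have e3 : ∀ i, (⟪W i, T.symm ((spt P c, q), y)⟫ : ℝ) = y i := fun i =>
    (congrArg (fun z : (ℝ × ℝ) × (Fin n → ℝ) => z.2 i) h2).symm
  refine ⟨T.symm ((spt P c, q), y), ?_, e2, e3⟩
  apply box_face hP hT hW hc hc' hv e1
  · intro i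
    rw [e3 i]
    exact (hy i).1
  · intro i
    rw [inner_neg_left, e3 i]
    exact (hy i).2
  · rw [e2]
    exact hq1
  · rw [inner_neg_left, e2]
    exact hq2

/-- the coordinates of a point of the facet are in the box -/
private theorem beltA_le {n : ℕ} {P : Set E} (hP : Polytope P) {W : Fin n → E} {c x : E}
    (hx : x ∈ face P c) {y : Fin n → ℝ} (hxy : ∀ i, ⟪W i, x⟫ = y i) (i : Fin n) :
    y i ≤ spt (face P c) (W i) ∧ -y i ≤ spt (face P c) (-W i) := by
  have hF := face_compact hP.compact c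
  have h1 := spt_le hF hx (W i)
  have h2 := spt_le hF hx (-W i)
  rw [inner_neg_left] at h2
  rw [hxy i] at h1 h2
  exact ⟨h1, h2⟩

theorem box_image {n : ℕ} (hn : Module.finrank ℝ E = n + 2) {P : Set E} (hP : Polytope P)
    (hT : Tiles P) {W : Fin n → E} (hW : Cov P W) {c : E} (hc : Facet P c)
    (hc' : ¬ Facet P (-c)) {v : E} (hv : Free P c v) (y : Fin n → ℝ) :
    ((∃ x ∈ face P c, ∀ i, ⟪W i, x⟫ = y i) ↔
      ∀ i, y i ≤ spt (face P c) (W i) ∧ -y i ≤ spt (face P c) (-W i)) ∧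
    ((∃ x ∈ face (face P c) v, ∀ i, ⟪W i, x⟫ = y i) ↔
      ∀ i, y i ≤ spt (face P c) (W i) ∧ -y i ≤ spt (face P c) (-W i)) ∧
    ((∃ x ∈ face (face P c) (-v), ∀ i, ⟪W i, x⟫ = y i) ↔
      ∀ i, y i ≤ spt (face P c) (W i) ∧ -y i ≤ spt (face P c) (-W i)) := by
  have hF := face_compact hP.compact c
  have hP0 : P.Nonempty := hP.2.mono interior_subset
  have hF0 : (face P c).Nonempty := by
    obtain ⟨p, hp, hpe⟩ := exists_spt hP.compact hP0 c
    exact ⟨p, (mem_face_iff hP.compact).2 ⟨hp, hpe⟩⟩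
  have hlow : -spt (face P c) v ≤ spt (face P c) (-v) := by
    obtain ⟨p, hp, hpe⟩ := exists_spt hF hF0 v
    have := spt_le hF hp (-v)
    rwa [inner_neg_left, hpe] at this
  refine ⟨⟨?_, ?_⟩, ⟨?_, ?_⟩, ⟨?_, ?_⟩⟩
  · rintro ⟨x, hx, hxy⟩
    exact beltA_le hP hx hxy
  · intro hy
    obtain ⟨x, hx, -, hxy⟩ := beltA_ex hn hP hT hW hc hc' hv y hy le_rfl hlow
    exact ⟨x, hx, hxy⟩
  · rintro ⟨x, hx, hxy⟩
    exact beltA_le hP hx.1 hxy
  · intro hy
    obtain ⟨x, hx, hvx, hxy⟩ := beltA_ex hn hP hT hW hc hc' hv y hy le_rfl hlow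
    exact ⟨x, (mem_face_iff hF).2 ⟨hx, hvx⟩, hxy⟩
  · rintro ⟨x, hx, hxy⟩
    exact beltA_le hP hx.1 hxy
  · intro hy
    obtain ⟨x, hx, hvx, hxy⟩ := beltA_ex hn hP hT hW hc hc' hv y hy
      (q := -spt (face P c) (-v)) (by linarith) (by rw [neg_neg])
    refine ⟨x, (mem_face_iff hF).2 ⟨hx, ?_⟩, hxy⟩
    rw [inner_neg_left, hvx, neg_neg]

/-- the three faces at the angle `t` have the same image -/
private theorem beltA_three {n : ℕ} (hn : Module.finrank ℝ E = n + 2) {P : Set E}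
    (hP : Polytope P) (hT : Tiles P) {W : Fin n → E} (hW : Cov P W) {c v : E}
    (hv : Free P c v) (y : Fin n → ℝ) :
    ((∃ x ∈ face (face P c) v, ∀ i, ⟪W i, x⟫ = y i) ↔ ∃ x ∈ face P c, ∀ i, ⟪W i, x⟫ = y i) ∧
    ((∃ x ∈ face (face P c) (-v), ∀ i, ⟪W i, x⟫ = y i) ↔
      ∃ x ∈ face P c, ∀ i, ⟪W i, x⟫ = y i) := by
  by_cases hc : Facet P c
  · have hc' : ¬ Facet P (-c) := fun h =>
      hv.no c (Submodule.subset_span (by simp)) ⟨hc, h⟩
    obtain ⟨h1, h2, h3⟩ := box_image hn hP hT hW hc hc' hv y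
    exact ⟨h2.trans h1.symm, h3.trans h1.symm⟩
  · have hlev : ∀ x ∈ face P c, ∀ x' ∈ face P c, ⟪v, x⟫ = ⟪v, x'⟫ := by
      intro x hx x' hx'
      by_contra hne
      exact hc (facet_of_nonlevel hP hv.nu hv.nv hv.uv hv.gv hx hx' hne)
    have hlev' : ∀ x ∈ face P c, ∀ x' ∈ face P c, ⟪-v, x⟫ = ⟪-v, x'⟫ := by
      intro x hx x' hx'
      rw [inner_neg_left, inner_neg_left, hlev x hx x' hx']
    rw [face_of_const hlev, face_of_const hlev']
    exact ⟨Iff.rfl, Iff.rfl⟩

theorem belt_image {n : ℕ} (hn : Module.finrank ℝ E = n + 2) {P : Set E} (hP : Polytope P)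
    (hT : Tiles P) {W : Fin n → E} (hW : Cov P W) {u : E} (hu : Facet P u)
    (hu' : ¬ Facet P (-u)) {v : E} (hv : Free P u v) (t : ℝ) (y : Fin n → ℝ) :
    (∃ x ∈ face P (ww u v t), ∀ i, ⟪W i, x⟫ = y i) ↔
      ∀ i, y i ≤ spt (face P u) (W i) ∧ -y i ≤ spt (face P u) (-W i) := by
  have hloc : IsLocallyConstant (fun t : ℝ =>
      {y : Fin n → ℝ | ∃ x ∈ face P (ww u v t), ∀ i, ⟪W i, x⟫ = y i}) := by
    rw [IsLocallyConstant.iff_eventually_eq]
    intro t
    have hr := face_rot hP (ww u v t) (ww' u v t)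
    have hl := face_rot hP (ww u v t) (-ww' u v t)
    obtain ⟨δ1, hδ1, h1⟩ := mem_nhdsGT_iff_exists_Ioo_subset.mp hr
    obtain ⟨δ2, hδ2, h2⟩ := mem_nhdsGT_iff_exists_Ioo_subset.mp hl
    have hδ1' : (0:ℝ) < δ1 := hδ1
    have hδ2' : (0:ℝ) < δ2 := hδ2
    have hthree := fun y => beltA_three hn hP hT hW (hv.rot hP hT t) y
    rw [Metric.eventually_nhds_iff]
    refine ⟨min δ1 δ2, lt_min hδ1' hδ2', fun s hs => ?_⟩
    rw [Real.dist_eq] at hs
    ext y
    simp only [mem_ofPred_eq]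
    rcases lt_trichotomy s t with hst | hst | hst
    · have hmem : t - s ∈ Ioo (0:ℝ) δ2 := by
        refine ⟨by linarith, ?_⟩
        rw [abs_of_neg (by linarith)] at hs
        linarith [min_le_right δ1 δ2]
      have h3 : face P (Real.cos (t - s) • ww u v t + Real.sin (t - s) • (-ww' u v t)) =
        face (face P (ww u v t)) (-ww' u v t) := h2 hmem
      have h4 : s = t - (t - s) := by ring
      have h6 : ww u v s = Real.cos (t - s) • ww u v t + Real.sin (t - s) • (-ww' u v t) := by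
        conv_lhs => rw [h4]
        exact ww_sub u v t (t - s)
      rw [h6, h3]
      exact (hthree y).2
    · rw [hst]
    · have hmem : s - t ∈ Ioo (0:ℝ) δ1 := by
        refine ⟨by linarith, ?_⟩
        rw [abs_of_pos (by linarith)] at hs
        linarith [min_le_left δ1 δ2]
      have h3 : face P (Real.cos (s - t) • ww u v t + Real.sin (s - t) • (ww' u v t)) =
        face (face P (ww u v t)) (ww' u v t) := h1 hmem
      have h4 : s = t + (s - t) := by ring
      have h6 : ww u v s = Real.cos (s - t) • ww u v t + Real.sin (s - t) • (ww' u v t) := by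
        conv_lhs => rw [h4]
        exact ww_add u v t (s - t)
      rw [h6, h3]
      exact (hthree y).1
  have hfin := hloc.apply_eq_of_preconnectedSpace t 0
  have e3 : ww u v 0 = u := by unfold ww; simp
  simp only [e3] at hfin
  have h5 : y ∈ {y : Fin n → ℝ | ∃ x ∈ face P (ww u v t), ∀ i, ⟪W i, x⟫ = y i} ↔
      y ∈ {y : Fin n → ℝ | ∃ x ∈ face P u, ∀ i, ⟪W i, x⟫ = y i} := by rw [hfin]
  exact h5.trans (box_image hn hP hT hW hu hu' hv y).1

end Pool.PT74
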