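import Pool.Agent.PT74.GBase

set_option autoImplicit false
set_option linter.unusedSectionVars false

/-!
# PT74/BoxA: the ridge normals of a facet without a parallel facet

`sec_normal`: the facet normals of the polytope `secQ P c` in `(ℝ ∙ c)ᗮ` are ridge normals of `P` (`gv_eq`,
`vol_prism_muHE`; the same lines are in the proof of `facts`, field `span`, PT24/Facts).
`two_free`: otherwise `facC_circle` gives `gv P (-c) (-v) ≠ 0`, `gv P (-c) (-z) ≠ 0`, and `thin_unique` for `-c`
(`-c` is not a facet normal); the same argument is in the proof of `facts`, field `two`, PT24/Facts.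
`sec_cases`: `w = ± W i` in the plane of `c` and `z`, `w ≠ ± c` because `-c` is not a facet normal, so `w = a c + b z`
with `b ≠ 0`.
-/

namespace Pool.PT74

open Set Filter Topology MeasureTheory
open scoped RealInnerProductSpace ENNReal
open Pool.PT56

variable {E : Type} [NormedAddCommGroup E] [InnerProductSpace ℝ E] [FiniteDimensional ℝ E]
  [MeasurableSpace E] [BorelSpace E]

theorem sec_normal {P : Set E} (hP : Polytope P) {c : E} (hc : Facet P c) {z : (ℝ ∙ c)ᗮ}
    (hz : Facet (secQ P c) z) : ‖(z : E)‖ = 1 ∧ ⟪c, (z : E)⟫ = 0 ∧ gv P c (z : E) ≠ 0 := by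
  have hcomp := hP.compact
  have hQ := secQ_compact hcomp hc.1
  refine ⟨hz.1, PT57.mem_perp_iff.mp z.2, ?_⟩
  rw [gv_eq hcomp hc.1 z, ← vol_prism_muHE hz.1 (face_compact hQ z)
    (fun x hx => ((mem_face_iff hQ).mp hx).2)]
  exact hz.2

theorem two_free {P : Set E} (hP : Polytope P) (hT : Tiles P) {c : E} (hc' : ¬ Facet P (-c))
    {v z : E} (hv : Free P c v) (hz : ‖z‖ = 1) (hcz : ⟪c, z⟫ = 0) (hg : gv P c z ≠ 0) :
    z = v ∨ z = -v ∨ ∃ w ∈ Submodule.span ℝ {c, z}, Facet P w ∧ Facet P (-w) := by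
  by_contra hcon
  push Not at hcon
  obtain ⟨h1, h2, h3⟩ := hcon
  have hno : ∀ w ∈ Submodule.span ℝ {c, z}, ¬ (Facet P w ∧ Facet P (-w)) :=
    fun w hw h => h3 w hw h.1 h.2
  have hcn := hv.nu
  have g1 : gv P (-c) (-v) ≠ 0 := by
    rw [facC_circle hP hT hcn hv.nv hv.uv hv.no]
    exact hv.gv
  have g2 : gv P (-c) (-z) ≠ 0 := by
    rw [facC_circle hP hT hcn hz hcz hno]
    exact hg
  rcases thin_unique hP.compact hP.conv (u := -c) (by rw [norm_neg, hcn]) (by rw [norm_neg, hv.nv])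
    (by rw [norm_neg, hz]) (by rw [inner_neg_neg, hv.uv]) (by rw [inner_neg_neg, hcz]) hc' g1 g2
    with h4 | h4
  · exact h1 (neg_injective h4)
  · rw [neg_neg] at h4
    exact h2 (by rw [← h4, neg_neg])

theorem sec_cases {n : ℕ} {P : Set E} (hP : Polytope P) (hT : Tiles P) {W : Fin n → E}
    (hW : Cov P W) {c : E} (hc : Facet P c) (hc' : ¬ Facet P (-c)) {v z : E} (hv : Free P c v)
    (hz : ‖z‖ = 1) (hcz : ⟪c, z⟫ = 0) (hg : gv P c z ≠ 0) :
    z = v ∨ z = -v ∨ ∃ (i : Fin n) (a b : ℝ), b ≠ 0 ∧ z = a • c + b • W i := by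
  rcases two_free hP hT hc' hv hz hcz hg with h | h | ⟨w, hw, hw1, hw2⟩
  · exact Or.inl h
  · exact Or.inr (Or.inl h)
  · right; right
    obtain ⟨α, β, hαβ⟩ := Submodule.mem_span_pair.mp hw
    have hβ : β ≠ 0 := by
      intro hβ
      rw [hβ, zero_smul, add_zero] at hαβ
      have h1 : |α| = 1 := by
        have := hw1.1
        rw [← hαβ, norm_smul, hc.1, mul_one] at this
        exact this
      rcases abs_eq (by norm_num : (0:ℝ) ≤ 1) |>.mp h1 with h2 | h2
      · rw [h2, one_smul] at hαβ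
        exact hc' (hαβ ▸ hw2)
      · rw [h2, neg_smul, one_smul] at hαβ
        exact hc' (hαβ ▸ hw1)
    have hz' : z = (-α / β) • c + (1 / β) • w := by
      rw [← hαβ]
      have e : (-α / β) • c + (1 / β) • (α • c + β • z) =
          (-α / β + 1 / β * α) • c + (1 / β * β) • z := by module
      rw [e]
      have e1 : -α / β + 1 / β * α = 0 := by ring
      have e2 : 1 / β * β = 1 := by field_simp
      rw [e1, e2]
      simp
    obtain ⟨i, hi | hi⟩ := hW.cov w hw1 hw2
    · exact ⟨i, -α / β, 1 / β, one_div_ne_zero hβ, by rw [← hi]; exact hz'⟩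
    · refine ⟨i, -α / β, -(1 / β), neg_ne_zero.mpr (one_div_ne_zero hβ), ?_⟩
      rw [hz', hi]
      module

end Pool.PT74
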