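import Pool.Agent.PT74.GBase

set_option autoImplicit false
set_option linter.unusedSectionVars false

/-!
# PT74/Circ: the belt of a plane without parallel pairs

`circle_all`: as `facC_circle` (PT56/FacC; copy the proof: the function `t ↦ gv P (ww u v t) (ww' u v t)` is locally
constant on `ℝ`, hence constant; compare `t` with `0`).
`facet_of_nonlevel`: a face with a nondegenerate ridge that is not in a level set of the ridge normal is a facet:
`gv_eq` and `vol_ne_zero_of_face` for `secQ P w` as in the proof of `thin_unique` (PT56/FacC).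
`Free.rot`: `norm_ww`, `norm_ww'`, `inner_ww`, `circle_all`; the span of `ww u v t`, `ww' u v t` is the span of `u`, `v`
(inclusion suffices).
-/

namespace Pool.PT74

open Set Filter Topology MeasureTheory
open scoped RealInnerProductSpace ENNReal
open Pool.PT56

variable {E : Type} [NormedAddCommGroup E] [InnerProductSpace ℝ E] [FiniteDimensional ℝ E]
  [MeasurableSpace E] [BorelSpace E]

theorem circle_all {P : Set E} (hP : Polytope P) (hT : Tiles P) {u v : E} (hu : ‖u‖ = 1)
    (hv : ‖v‖ = 1) (huv : ⟪u, v⟫ = 0) (hno : NoPN P u v) (t : ℝ) :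
    gv P (ww u v t) (ww' u v t) = gv P u v := by
  have hc := hP.compact
  have hspan : ∀ t, ww u v t ∈ Submodule.span ℝ {u, v} := by
    intro t
    exact Submodule.mem_span_pair.mpr ⟨_, _, rfl⟩
  have hsymm : ∀ t, gv P (ww u v t) (-ww' u v t) = gv P (ww u v t) (ww' u v t) := by
    intro t
    have h1 := norm_ww hu hv huv t
    have h2 := norm_ww' hu hv huv t
    have h3 := inner_ww hu hv huv t
    by_cases h : Facet P (-ww u v t)
    · have h4 : ¬ Facet P (ww u v t) := fun h5 => hno _ (hspan t) ⟨h5, h⟩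
      exact (gv_symm_of_not_facet hc hP.conv h1 h2 h3 h4).symm
    · exact (gv_symm_of_single hc hP.conv hP.2 hT h1 h2 h3 h).symm
  have hloc : IsLocallyConstant (fun t : ℝ => gv P (ww u v t) (ww' u v t)) := by
    rw [IsLocallyConstant.iff_eventually_eq]
    intro t
    have hr := gv_rot hP (ww u v t) (ww' u v t)
    have hl := gv_rot hP (ww u v t) (-ww' u v t)
    obtain ⟨δ1, hδ1, h1⟩ := mem_nhdsGT_iff_exists_Ioo_subset.mp hr
    obtain ⟨δ2, hδ2, h2⟩ := mem_nhdsGT_iff_exists_Ioo_subset.mp hl
    have hδ1' : (0:ℝ) < δ1 := hδ1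
    have hδ2' : (0:ℝ) < δ2 := hδ2
    rw [Metric.eventually_nhds_iff]
    refine ⟨min δ1 δ2, lt_min hδ1' hδ2', fun y hy => ?_⟩
    rw [Real.dist_eq] at hy
    show gv P (ww u v y) (ww' u v y) = gv P (ww u v t) (ww' u v t)
    rcases lt_trichotomy y t with hyt | hyt | hyt
    · have hmem : t - y ∈ Ioo (0:ℝ) δ2 := by
        refine ⟨by linarith, ?_⟩
        rw [abs_of_neg (by linarith)] at hy
        linarith [min_le_right δ1 δ2]
      have h3 := h2 hmem
      have h3' : gv P (Real.cos (t - y) • ww u v t + Real.sin (t - y) • (-ww' u v t))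
        (-Real.sin (t - y) • ww u v t + Real.cos (t - y) • (-ww' u v t)) =
        gv P (ww u v t) (-ww' u v t) := h3
      have h4 : y = t - (t - y) := by ring
      have h5 := hsymm y
      have h6 : ww u v y = Real.cos (t - y) • ww u v t + Real.sin (t - y) • (-ww' u v t) := by
        conv_lhs => rw [h4]
        exact ww_sub u v t (t - y)
      have h7 : -ww' u v y = (-Real.sin (t - y) • ww u v t + Real.cos (t - y) • (-ww' u v t)) := by
        conv_lhs => rw [h4]
        rw [ww'_sub u v t (t - y), neg_neg]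
      rw [← h5, h6, h7, h3', hsymm t]
    · rw [hyt]
    · have hmem : y - t ∈ Ioo (0:ℝ) δ1 := by
        refine ⟨by linarith, ?_⟩
        rw [abs_of_pos (by linarith)] at hy
        linarith [min_le_left δ1 δ2]
      have h3 := h1 hmem
      have h3' : gv P (Real.cos (y - t) • ww u v t + Real.sin (y - t) • (ww' u v t))
        (-Real.sin (y - t) • ww u v t + Real.cos (y - t) • (ww' u v t)) =
        gv P (ww u v t) (ww' u v t) := h3
      have h4 : y = t + (y - t) := by ring
      have h6 : ww u v y = Real.cos (y - t) • ww u v t + Real.sin (y - t) • (ww' u v t) := by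
        conv_lhs => rw [h4]
        exact ww_add u v t (y - t)
      have h7 : ww' u v y = (-Real.sin (y - t) • ww u v t + Real.cos (y - t) • (ww' u v t)) := by
        conv_lhs => rw [h4]
        exact ww'_add u v t (y - t)
      rw [h6, h7, h3']
  have hfin := hloc.apply_eq_of_preconnectedSpace t 0
  have e3 : ww u v 0 = u := by unfold ww; simp
  have e4 : ww' u v 0 = v := by unfold ww'; simp
  simp only [e3, e4] at hfin
  exact hfin

theorem facet_of_nonlevel {P : Set E} (hP : Polytope P) {w v : E} (hw : ‖w‖ = 1) (hv : ‖v‖ = 1)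
    (hwv : ⟪w, v⟫ = 0) (hg : gv P w v ≠ 0) {x y : E} (hx : x ∈ face P w) (hy : y ∈ face P w)
    (hxy : ⟪v, x⟫ ≠ ⟪v, y⟫) : Facet P w := by
  have hc := hP.compact
  by_contra hcon
  have h0 : volume (secQ P w) = 0 := by
    rw [vol_secQ hc hw]
    by_contra h
    exact hcon ⟨hw, h⟩
  have hQ := secQ_compact hc hw
  let v' : (ℝ ∙ w)ᗮ := ⟨v, PT57.mem_perp_iff.mpr hwv⟩
  have e1 : gv P w v = _ := gv_eq hc hw v'
  rw [e1] at hg
  have hlev : ∀ z ∈ face P w, ⟪v, z⟫ = spt (secQ P w) v' := by
    intro z hz
    rw [← image_secQ hc hw] at hz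
    obtain ⟨y, hy, rfl⟩ := hz
    have hin : ⟪v, spt P w • w + (y : E)⟫ = ⟪v', y⟫ := by
      rw [inner_add_right, inner_smul_right, real_inner_comm, hwv]
      show _ * 0 + _ = ⟪v, (y : E)⟫
      simp
    show ⟪v, spt P w • w + (y : E)⟫ = _
    rw [hin]
    refine le_antisymm (spt_le hQ hy v') ?_
    by_contra h
    push Not at h
    exact vol_ne_zero_of_face hQ (secQ_convex hP.conv w) (v := v') hv hg hy h h0
  exact hxy ((hlev x hx).trans (hlev y hy).symm)

theorem Free.rot {P : Set E} (hP : Polytope P) (hT : Tiles P) {u v : E} (h : Free P u v) (t : ℝ) :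
    Free P (ww u v t) (ww' u v t) := by
  refine ⟨norm_ww h.nu h.nv h.uv t, norm_ww' h.nu h.nv h.uv t, inner_ww h.nu h.nv h.uv t, ?_, ?_⟩
  · rw [circle_all hP hT h.nu h.nv h.uv h.no t]
    exact h.gv
  · intro w hw
    refine h.no w ?_
    have hle : Submodule.span ℝ {ww u v t, ww' u v t} ≤ Submodule.span ℝ {u, v} := by
      rw [Submodule.span_le]
      intro z hz
      rcases hz with hz | hz
      · rw [hz]
        exact Submodule.mem_span_pair.mpr ⟨_, _, rfl⟩
      · rw [mem_singleton_iff] at hz
        rw [hz]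
        exact Submodule.mem_span_pair.mpr ⟨_, _, rfl⟩
    exact hle hw

end Pool.PT74
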