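import Pool.Agent.PT74.Circ
import Pool.Agent.PT74.Coord
import Pool.Agent.PT74.Box
import Pool.Agent.PT74.BoxF

set_option autoImplicit false
set_option linter.unusedSectionVars false

/-!
# PT74/Contra: the parallel facets bound the polytope exactly on the belt

Suppose `spt P (W i) > spt (face P u) (W i) = B`.  By `box_ridge` and `exists_other` there is a facet `c = α u + β W i`,
`β > 0`, containing `R = {x ∈ face P u | ⟪W i, x⟫ = B}`; `c` is single (`hW.cov`, `coords_indep`).  Let `v'` be free for
`c` (`exists_free`).  On the flat `⟪u, x⟫ = spt P u`, `⟪W i, x⟫ = B` the set `R` is a box in the coordinates `v`, `W j` and a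
box in the coordinates `v'`, `W j`, so `v' = λ v + μ u + ν W i` with `λ ≠ 0`; the vector `β v' - ν c ≠ 0` is in both
planes; by `circle_all` and `thin_unique` it and its negative are normals of facets (up to a factor): contradiction.
-/

namespace Pool.PT74

open Set Filter Topology MeasureTheory
open scoped RealInnerProductSpace ENNReal
open Pool.PT56

variable {E : Type} [NormedAddCommGroup E] [InnerProductSpace ℝ E] [FiniteDimensional ℝ E]
  [MeasurableSpace E] [BorelSpace E]

private theorem in_comb2 (u v x : E) (p q : ℝ) : ⟪p • u + q • v, x⟫ = p * ⟪u, x⟫ + q * ⟪v, x⟫ := by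
  rw [inner_add_left, inner_smul_left, inner_smul_left]
  simp

/-- a unit vector of the plane is on the circle -/
private theorem exists_ww {u v x : E} (hu : ‖u‖ = 1) (hv : ‖v‖ = 1) (huv : ⟪u, v⟫ = 0)
    (hx : ‖x‖ = 1) (h : x ∈ Submodule.span ℝ {u, v}) : ∃ t, x = ww u v t := by
  obtain ⟨p, q, rfl⟩ := Submodule.mem_span_pair.mp h
  have huu : ⟪u, u⟫ = 1 := by rw [real_inner_self_eq_norm_sq, hu]; norm_num
  have hvv : ⟪v, v⟫ = 1 := by rw [real_inner_self_eq_norm_sq, hv]; norm_num
  have hvu : ⟪v, u⟫ = 0 := by rw [real_inner_comm]; exact huv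
  have h1 : p ^ 2 + q ^ 2 = 1 := by
    have h2 : ⟪p • u + q • v, p • u + q • v⟫ = 1 := by
      rw [real_inner_self_eq_norm_sq, hx]; norm_num
    rw [in_comb2, inner_add_right, inner_add_right, inner_smul_right, inner_smul_right,
      inner_smul_right, inner_smul_right, huu, hvv, huv, hvu] at h2
    linarith
  have hz : ‖(⟨p, q⟩ : ℂ)‖ = 1 := by
    have h3 : ‖(⟨p, q⟩ : ℂ)‖ ^ 2 = 1 := by
      rw [Complex.sq_norm, Complex.normSq_mk]
      linarith
    nlinarith [norm_nonneg (⟨p, q⟩ : ℂ)]
  have hz0 : (⟨p, q⟩ : ℂ) ≠ 0 := by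
    intro h0
    rw [h0] at hz
    simp at hz
  refine ⟨Complex.arg ⟨p, q⟩, ?_⟩
  unfold ww
  rw [Complex.cos_arg hz0, Complex.sin_arg, hz]
  simp

/-- a common unit vector of two different free planes is a facet normal -/
private theorem facet_common {P : Set E} (hP : Polytope P) (hT : Tiles P) {u v c v' : E}
    (h : Free P u v) (h' : Free P c v') (hne : c ∉ Submodule.span ℝ {u, v}) {x : E}
    (hx : ‖x‖ = 1) (h1 : x ∈ Submodule.span ℝ {u, v}) (h2 : x ∈ Submodule.span ℝ {c, v'}) :
    Facet P x := by
  obtain ⟨t, ht⟩ := exists_ww h.nu h.nv h.uv hx h1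
  obtain ⟨t', ht'⟩ := exists_ww h'.nu h'.nv h'.uv hx h2
  have hr := h.rot hP hT t
  have hr' := h'.rot hP hT t'
  by_contra hcon
  rw [← ht] at hr
  rw [← ht'] at hr'
  have h3 := thin_unique hP.compact hP.conv hx hr.nv hr'.nv hr.uv hr'.uv hcon hr.gv hr'.gv
  apply hne
  have e : c = Real.cos t' • x + (-Real.sin t') • ww' c v' t' := by
    rw [ht']
    unfold ww ww'
    have e1 : Real.cos t' • (Real.cos t' • c + Real.sin t' • v') +
        (-Real.sin t') • (-Real.sin t' • c + Real.cos t' • v') =
        (Real.sin t' ^ 2 + Real.cos t' ^ 2) • c := by module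
    rw [e1, Real.sin_sq_add_cos_sq, one_smul]
  have hm : ww' u v t ∈ Submodule.span ℝ {u, v} :=
    Submodule.mem_span_pair.mpr ⟨_, _, rfl⟩
  rw [e]
  refine Submodule.add_mem _ (Submodule.smul_mem _ _ h1) (Submodule.smul_mem _ _ ?_)
  rcases h3 with h4 | h4
  · rw [h4]; exact hm
  · rw [h4]; exact Submodule.neg_mem _ hm

private theorem Free.neg {P : Set E} (hP : Polytope P) (hT : Tiles P) {c v : E}
    (hc' : ¬ Facet P (-c)) (h : Free P c v) : Free P c (-v) := by
  refine ⟨h.nu, by rw [norm_neg]; exact h.nv, by rw [inner_neg_right, h.uv, neg_zero], ?_, ?_⟩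
  · rw [← gv_symm_of_single hP.compact hP.conv hP.2 hT h.nu h.nv h.uv hc']
    exact h.gv
  · intro w hw
    apply h.no w
    obtain ⟨p, q, rfl⟩ := Submodule.mem_span_pair.mp hw
    exact Submodule.mem_span_pair.mpr ⟨p, -q, by module⟩

/-- the box is not flat -/
private theorem box_lt {P : Set E} (hP : Polytope P) {u w : E} (hu : Facet P u)
    (hind : ∀ a : ℝ, w ≠ a • u) : -spt (face P u) (-w) < spt (face P u) w := by
  have hFc := face_compact hP.compact u
  have huu : ⟪u, u⟫ = 1 := by rw [real_inner_self_eq_norm_sq, hu.1]; norm_num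
  have h0 : w - ⟪u, w⟫ • u ≠ 0 := fun h => hind _ (sub_eq_zero.mp h)
  have h1 : ⟪u, w - ⟪u, w⟫ • u⟫ = 0 := by
    rw [inner_sub_right, inner_smul_right, huu]; ring
  obtain ⟨x, hx, hne⟩ := facet_not_level hP.compact hu h0 h1
    (spt (face P u) w - ⟪u, w⟫ * spt P u)
  rw [inner_sub_left, inner_smul_left, ((mem_face_iff hP.compact).mp hx).2] at hne
  simp only [conj_trivial] at hne
  have h2 : ⟪w, x⟫ ≠ spt (face P u) w := fun h => hne (by rw [h])
  have h3 := lt_of_le_of_ne (spt_le hFc hx w) h2
  have h4 := spt_le hFc hx (-w)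
  rw [inner_neg_left] at h4
  linarith

theorem spt_le_belt {n : ℕ} (hn : Module.finrank ℝ E = n + 2) {P : Set E} (hP : Polytope P)
    (hT : Tiles P) {W : Fin n → E} (hW : Cov P W) {u : E} (hu : Facet P u)
    (hu' : ¬ Facet P (-u)) {v : E} (hv : Free P u v) (i : Fin n) :
    spt P (W i) ≤ spt (face P u) (W i) := by
  by_contra hlt
  push Not at hlt
  have hc := hP.compact
  have hFc := face_compact hc u
  have hsp := box_span hP hT hW hu hu' hv
  obtain ⟨T, hTT⟩ := coords hn hsp
  have hsum : ∀ (r : ℝ) (j : Fin n), ∑ k, (if k = j then r else 0) • W k = r • W j := by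
    intro r j
    simp
  -- the ridge and the facet across it
  obtain ⟨z, a, b, hz, huz, hgz, hb, hzab⟩ := box_ridge hn hP hT hW hu hu' hv i
  obtain ⟨c, hcF, ⟨a', b', hb', hcab⟩, hsub⟩ := exists_other hP hu hz huz hgz
  obtain ⟨α, β, hβ, hcc⟩ : ∃ α β : ℝ, 0 < β ∧ c = α • u + β • W i :=
    ⟨a' + b' * a, b' * b, mul_pos hb' hb, by rw [hcab, hzab]; module⟩
  have hRc : ∀ x ∈ face P u, ⟪W i, x⟫ = spt (face P u) (W i) → x ∈ face P c := by
    intro x hx hxi
    apply hsub
    refine ⟨hx, fun y hy => ?_⟩
    rw [hzab, in_comb2, in_comb2, ((mem_face_iff hc).mp hx).2, ((mem_face_iff hc).mp hy).2, hxi]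
    have := mul_le_mul_of_nonneg_left (spt_le hFc hy (W i)) hb.le
    linarith
  have hPne : P.Nonempty := hP.2.mono interior_subset
  have hFne : (face P u).Nonempty := by
    obtain ⟨x, hx, hx'⟩ := exists_spt hc hPne u
    exact ⟨x, (mem_face_iff hc).mpr ⟨hx, hx'⟩⟩
  -- `c` is not one of the `± W j`
  have hcne : ∀ j, c ≠ W j ∧ c ≠ -W j := by
    intro j
    constructor
    · intro h
      by_cases hj : j = i
      · obtain ⟨r, hr, hr'⟩ := exists_spt hFc hFne (W i)
        have h1 := ((mem_face_iff hc).mp (hRc r hr hr')).2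
        rw [h, hj, hr'] at h1
        linarith
      · have h1 : α • u + (0 : ℝ) • v + ∑ k, ((if k = i then β else 0) -
            (if k = j then (1 : ℝ) else 0)) • W k = 0 := by
          simp only [sub_smul, Finset.sum_sub_distrib]
          rw [hsum, hsum, zero_smul, add_zero, one_smul, ← h, ← add_sub_assoc, ← hcc, sub_self]
        have h2 := (coords_indep hn hsp h1).2.2 i
        simp [Ne.symm hj] at h2
        linarith
    · intro h
      have h1 : α • u + (0 : ℝ) • v + ∑ k, ((if k = i then β else 0) +
          (if k = j then (1 : ℝ) else 0)) • W k = 0 := by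
        simp only [add_smul, Finset.sum_add_distrib]
        rw [hsum, hsum, zero_smul, add_zero, one_smul, ← add_assoc, ← hcc, h, neg_add_cancel]
      have h2 := (coords_indep hn hsp h1).2.2 i
      simp only [if_true] at h2
      split_ifs at h2 <;> linarith
  have hc' : ¬ Facet P (-c) := by
    intro h
    obtain ⟨j, hj | hj⟩ := hW.cov c hcF h
    · exact (hcne j).1 hj
    · exact (hcne j).2 hj
  have hcuv : c ∉ Submodule.span ℝ {u, v} := by
    intro h
    obtain ⟨p, q, hpq⟩ := Submodule.mem_span_pair.mp h
    have h1 : (α - p) • u + (-q) • v + ∑ k, (if k = i then β else 0) • W k = 0 := by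
      rw [hsum]
      have : (α - p) • u + (-q) • v + β • W i = (α • u + β • W i) - (p • u + q • v) := by module
      rw [this, hpq, ← hcc, sub_self]
    have h2 := (coords_indep hn hsp h1).2.2 i
    simp only [if_true] at h2
    linarith
  -- the free ridge of `c`
  have hkey : ∀ v' : E, Free P c v' → ∀ (μ l : ℝ) (γ : Fin n → ℝ),
      v' = μ • u + l • v + ∑ k, γ k • W k → 0 < l → False := by
    intro v' hv' μ l γ hv'eq hl
    have hFcc := face_compact hc c
    have hin : ∀ x, ⟪v', x⟫ = μ * ⟪u, x⟫ + l * ⟪v, x⟫ + ∑ k, γ k * ⟪W k, x⟫ := by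
      intro x
      rw [hv'eq, inner_add_left, in_comb2, sum_inner]
      congr 1
      apply Finset.sum_congr rfl
      intro k _
      rw [inner_smul_left]; simp
    -- claim A
    have hA : ∀ x ∈ face P u, ⟪W i, x⟫ = spt (face P u) (W i) → ⟪v, x⟫ = spt (face P u) v →
        ⟪v', x⟫ = spt (face P c) v' := by
      intro x hx hxi hxv
      have hxc := hRc x hx hxi
      refine le_antisymm (spt_le hFcc hxc v') ?_
      by_contra hcon
      push Not at hcon
      set ε := (spt (face P c) v' - ⟪v', x⟫) / l with hε
      have hε0 : 0 < ε := div_pos (by linarith) hl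
      set ev := T.symm ((0, 1), 0) with hev
      have hTev : T ev = ((0, 1), 0) := by rw [hev, T.apply_symm_apply]
      rw [hTT] at hTev
      have e1 : ⟪u, ev⟫ = 0 := congrArg (fun p => p.1.1) hTev
      have e2 : ⟪v, ev⟫ = 1 := congrArg (fun p => p.1.2) hTev
      have e3 : ∀ j, ⟪W j, ev⟫ = 0 := fun j => congrFun (congrArg (fun p => p.2) hTev) j
      have e4 : ⟪v', ev⟫ = l := by
        rw [hin, e1, e2]
        simp [e3]
      have e5 : ⟪c, ev⟫ = 0 := by rw [hcc, in_comb2, e1, e3]; ring
      have hx' : x + ε • ev ∈ face P c := by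
        apply box_face hP hT hW hcF hc' hv'
        · rw [inner_add_right, inner_smul_right, e5, ((mem_face_iff hc).mp hxc).2]; ring
        · intro j
          rw [inner_add_right, inner_smul_right, e3]
          have := spt_le hFcc hxc (W j)
          linarith
        · intro j
          rw [inner_add_right, inner_smul_right, inner_neg_left (W j) ev, e3]
          have := spt_le hFcc hxc (-W j)
          linarith
        · rw [inner_add_right, inner_smul_right, e4, hε, div_mul_cancel₀ _ hl.ne']
          linarith
        · rw [inner_add_right, inner_smul_right, inner_neg_left v' ev, e4]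
          have := spt_le hFcc hxc (-v')
          have h6 := mul_pos hε0 hl
          linarith
      have hx'' : x + ε • ev ∈ face P u := by
        refine (mem_face_iff hc).mpr ⟨hx'.1, ?_⟩
        rw [inner_add_right, inner_smul_right, e1, ((mem_face_iff hc).mp hx).2]; ring
      have h7 := spt_le hFc hx'' v
      rw [inner_add_right, inner_smul_right, e2, hxv] at h7
      linarith
    -- claim B
    have hB : ∀ j, j ≠ i → γ j = 0 := by
      intro j hji
      set x0 := T.symm ((spt P u, spt (face P u) v), fun k => spt (face P u) (W k)) with hx0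
      have hT0 : T x0 = ((spt P u, spt (face P u) v), fun k => spt (face P u) (W k)) := by
        rw [hx0, T.apply_symm_apply]
      rw [hTT] at hT0
      have e1 : ⟪u, x0⟫ = spt P u := congrArg (fun p => p.1.1) hT0
      have e2 : ⟪v, x0⟫ = spt (face P u) v := congrArg (fun p => p.1.2) hT0
      have e3 : ∀ k, ⟪W k, x0⟫ = spt (face P u) (W k) :=
        fun k => congrFun (congrArg (fun p => p.2) hT0) k
      have hle : ∀ w : E, -spt (face P u) (-w) ≤ spt (face P u) w := by
        intro w
        obtain ⟨x, hx⟩ := hFne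
        have h1 := spt_le hFc hx w
        have h2 := spt_le hFc hx (-w)
        rw [inner_neg_left] at h2
        linarith
      set δ := -spt (face P u) (-W j) - spt (face P u) (W j) with hδ
      have hδ0 : δ < 0 := by
        have := box_lt hP hu (w := W j) (by
          intro r hr
          have h1 : (-r) • u + (0 : ℝ) • v + ∑ k, (if k = j then (1 : ℝ) else 0) • W k = 0 := by
            rw [hsum, one_smul, hr]
            module
          have h2 := (coords_indep hn hsp h1).2.2 j
          simp at h2)
        linarith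
      set e := T.symm ((0, 0), Pi.single j 1) with he
      have hTe : T e = ((0, 0), Pi.single j 1) := by rw [he, T.apply_symm_apply]
      rw [hTT] at hTe
      have f1 : ⟪u, e⟫ = 0 := congrArg (fun p => p.1.1) hTe
      have f2 : ⟪v, e⟫ = 0 := congrArg (fun p => p.1.2) hTe
      have f3 : ∀ k, ⟪W k, e⟫ = if k = j then 1 else 0 := by
        intro k
        have := congrFun (congrArg (fun p => p.2) hTe) k
        simp only [Pi.single_apply] at this
        exact this
      have hx0F : x0 ∈ face P u := by
        apply box_face hP hT hW hu hu' hv e1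
        · intro k; rw [e3]
        · intro k; rw [inner_neg_left, e3]; linarith [hle (W k)]
        · rw [e2]
        · rw [inner_neg_left, e2]; linarith [hle v]
      have hx1F : x0 + δ • e ∈ face P u := by
        apply box_face hP hT hW hu hu' hv
        · rw [inner_add_right, inner_smul_right, f1, e1]; ring
        · intro k
          rw [inner_add_right, inner_smul_right, f3, e3]
          split_ifs <;> nlinarith
        · intro k
          rw [inner_neg_left, inner_add_right, inner_smul_right, f3, e3]
          split_ifs with hk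
          · rw [hδ, hk]
            linarith
          · linarith [hle (W k)]
        · rw [inner_add_right, inner_smul_right, f2, e2]; linarith
        · rw [inner_neg_left, inner_add_right, inner_smul_right, f2, e2]; linarith [hle v]
      have h1 := hA x0 hx0F (e3 i) e2
      have h2 := hA (x0 + δ • e) hx1F
        (by rw [inner_add_right, inner_smul_right, f3, e3, if_neg (Ne.symm hji)]; ring)
        (by rw [inner_add_right, inner_smul_right, f2, e2]; ring)
      rw [inner_add_right, inner_smul_right, h1] at h2
      have h3 : ⟪v', e⟫ = γ j := by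
        rw [hin, f1, f2]
        simp [f3]
      rw [h3] at h2
      have h4 : δ * γ j = 0 := by linarith
      rcases mul_eq_zero.mp h4 with h5 | h5
      · exact absurd h5 hδ0.ne
      · exact h5
    -- the common vector
    have hv'2 : v' = μ • u + l • v + γ i • W i := by
      rw [hv'eq]
      congr 1
      rw [Finset.sum_eq_single i]
      · intro k _ hk
        rw [hB k hk, zero_smul]
      · intro h; exact absurd (Finset.mem_univ i) h
    set x := β • v' - γ i • c with hx
    have hx2 : x = (β * μ - γ i * α) • u + (β * l) • v := by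
      rw [hx, hcc]
      nth_rewrite 1 [hv'2]
      module
    have hx0 : x ≠ 0 := by
      intro h
      have h1 : ⟪x, v⟫ = β * l := by
        rw [hx2, in_comb2, hv.uv, real_inner_self_eq_norm_sq, hv.nv]; ring
      rw [h, inner_zero_left] at h1
      have := mul_pos hβ hl
      linarith
    have hxn : 0 < ‖x‖ := norm_pos_iff.mpr hx0
    set y := ‖x‖⁻¹ • x with hy
    have hyn : ‖y‖ = 1 := by
      rw [hy, norm_smul, norm_inv, norm_norm, inv_mul_cancel₀ hxn.ne']
    have hy1 : y ∈ Submodule.span ℝ {u, v} := by
      apply Submodule.smul_mem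
      rw [hx2]
      exact Submodule.mem_span_pair.mpr ⟨_, _, rfl⟩
    have hy2 : y ∈ Submodule.span ℝ {c, v'} := by
      apply Submodule.smul_mem
      exact Submodule.mem_span_pair.mpr ⟨-γ i, β, by rw [hx]; module⟩
    exact hv.no y hy1 ⟨facet_common hP hT hv hv' hcuv hyn hy1 hy2,
      facet_common hP hT hv hv' hcuv (by rw [norm_neg, hyn]) (Submodule.neg_mem _ hy1)
        (Submodule.neg_mem _ hy2)⟩
  obtain ⟨v', hv'⟩ := exists_free hn hP hW hcF hc'
  obtain ⟨μ, l, γ, hv'eq⟩ := coords_span hsp v'
  rcases lt_trichotomy l 0 with hl | hl | hl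
  · refine hkey (-v') (Free.neg hP hT hc' hv') (-μ) (-l) (fun k => -γ k) ?_ (by linarith)
    rw [hv'eq]
    simp only [neg_smul, Finset.sum_neg_distrib]
    module
  · -- `l = 0` contradicts the independence for `c`
    set ev := T.symm ((0, 1), 0) with hev
    have hTev : T ev = ((0, 1), 0) := by rw [hev, T.apply_symm_apply]
    rw [hTT] at hTev
    have e1 : ⟪u, ev⟫ = 0 := congrArg (fun p => p.1.1) hTev
    have e2 : ⟪v, ev⟫ = 1 := congrArg (fun p => p.1.2) hTev
    have e3 : ∀ j, ⟪W j, ev⟫ = 0 := fun j => congrFun (congrArg (fun p => p.2) hTev) j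
    have e4 : ⟪v', ev⟫ = 0 := by
      rw [hv'eq, inner_add_left, in_comb2, sum_inner, e1, e2, hl]
      simp [inner_smul_left, e3]
    have e5 : ⟪c, ev⟫ = 0 := by rw [hcc, in_comb2, e1, e3]; ring
    have := box_span hP hT hW hcF hc' hv' ev e5 e4 e3
    rw [this, inner_zero_right] at e2
    exact zero_ne_one e2
  · exact hkey v' hv' μ l γ hv'eq hl

theorem spt_le_belt' {n : ℕ} (hn : Module.finrank ℝ E = n + 2) {P : Set E} (hP : Polytope P)
    (hT : Tiles P) {W : Fin n → E} (hW : Cov P W) {u : E} (hu : Facet P u)
    (hu' : ¬ Facet P (-u)) {v : E} (hv : Free P u v) (i : Fin n) :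
    spt P (-W i) ≤ spt (face P u) (-W i) := by
  have h := spt_le_belt hn hP hT (hW.flip i) hu hu' hv i
  simpa using h

end Pool.PT74
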