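import Pool.Agent.PT74.Poly
import Pool.Agent.PT56.Nec
import Pool.Agent.PT56.Aff

set_option autoImplicit false
set_option linter.unusedSectionVars false

/-!
# PT74/PlNo: plane tiles without parallel sides

`noPar_det`: `side v j = -c side v i`, `c > 0` by `IsPoly.parallel_cases` or directly (PT56/PolyF); the functional
`z ↦ det (side v i) z` is minimal at `v i`, `v (i + 1)` and maximal at `v j`, `v (j + 1)` (`IsPoly.mem_body_iff`).
`plane_shape`: `exists_isPoly`, `good_of_tiles` (PT56/Nec), `noPar_det`: `n ≤ 4`.  `n = 3`: `s = t = 1/2`; `n = 4`: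
`v 2 = v 0 + s (v 1 - v 0) + t (v 3 - v 0)`; `g` the affine map with `(0, 0) ↦ v 0`, `(1, 0) ↦ v 1`, `(0, 1) ↦ v 3` (or
`v 2` if `n = 3`); `g '' KK s t` by `AffineMap.image_convexHull`.
-/

namespace Pool.PT74

open Set Filter Topology
open Pool.PT56

theorem noPar_det {n : ℕ} {v : ZMod n → ℝ × ℝ} (hv : IsPoly v) (hN : NoPar (body v))
    {i j : ZMod n} (hij : i ≠ j) : det (side v i) (side v j) ≠ 0 := by
  intro h
  obtain ⟨c, hc, hd⟩ := hv.parallel_cases hij h
  have hne : ∀ k : ZMod n, v k ≠ v (k + 1) := by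
    intro k hk
    apply hv.side_ne k
    rw [side, ← hk, sub_self]
  have h0 : (side v i).2 ≠ 0 ∨ (side v i).1 ≠ 0 := by
    by_contra hcon
    push Not at hcon
    exact hv.side_ne i (Prod.ext hcon.2 hcon.1)
  have hd1 : -(side v i).1 = c * (side v j).1 := by
    have := congrArg Prod.fst hd
    simpa using this
  have hd2 : -(side v i).2 = c * (side v j).2 := by
    have := congrArg Prod.snd hd
    simpa using this
  have hi : ∀ z ∈ body v, 0 ≤ det (side v i) (z - v i) := fun z hz => (hv.mem_body_iff z).1 hz i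
  have hj : ∀ z ∈ body v, det (side v i) (z - v j) ≤ 0 := by
    intro z hz
    have h1 := (hv.mem_body_iff z).1 hz j
    have h2 : det (side v i) (z - v j) = -(c * det (side v j) (z - v j)) := by
      simp only [det] at *
      linear_combination (-(z - v j).2) * hd1 + (z - v j).1 * hd2
    rw [h2]
    have := mul_nonneg hc.le h1
    linarith
  have hsi : det (side v i) (v (i + 1) - v i) = 0 := by simp only [side, det]; ring
  have hsj : det (side v i) (v (j + 1) - v j) = 0 := by
    have h1 : det (side v i) (side v j) = 0 := h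
    exact h1
  refine hN (side v i).2 (-(side v i).1) ?_ (v i) (vtx_mem_body v i) (v (i + 1))
    (vtx_mem_body v _) (v j) (vtx_mem_body v j) (v (j + 1)) (vtx_mem_body v _) (hne i) (hne j)
    ?_ ?_ ?_ ?_
  · intro h1
    have h2 : (side v i).2 = 0 := congrArg Prod.fst h1
    have h3 : -(side v i).1 = 0 := congrArg Prod.snd h1
    rcases h0 with h0 | h0
    · exact h0 h2
    · exact h0 (neg_eq_zero.1 h3)
  · intro z hz
    have h1 := hi z hz
    simp only [det, Prod.fst_sub, Prod.snd_sub] at h1
    linarith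
  · intro z hz
    have h1 := hi z hz
    simp only [det, Prod.fst_sub, Prod.snd_sub] at h1 hsi
    linarith
  · intro z hz
    have h1 := hj z hz
    simp only [det, Prod.fst_sub, Prod.snd_sub] at h1
    linarith
  · intro z hz
    have h1 := hj z hz
    simp only [det, Prod.fst_sub, Prod.snd_sub] at h1 hsj
    linarith

/-- the linear map `x ↦ x.1 a + x.2 b` -/
noncomputable def plNo_lin (a b : ℝ × ℝ) (h : det a b ≠ 0) : (ℝ × ℝ) ≃ₗ[ℝ] (ℝ × ℝ) where
  toFun x := x.1 • a + x.2 • b
  map_add' x y := by simp only [Prod.fst_add, Prod.snd_add, add_smul]; abel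
  map_smul' r x := by
    simp only [Prod.smul_fst, Prod.smul_snd, smul_eq_mul, mul_smul, RingHom.id_apply, smul_add]
  invFun y := (det y b / det a b, det a y / det a b)
  left_inv x := by
    apply Prod.ext
    · rw [div_eq_iff h]
      simp only [det, Prod.fst_add, Prod.snd_add, Prod.smul_fst, Prod.smul_snd, smul_eq_mul]
      ring
    · rw [div_eq_iff h]
      simp only [det, Prod.fst_add, Prod.snd_add, Prod.smul_fst, Prod.smul_snd, smul_eq_mul]
      ring
  right_inv y := by
    apply Prod.ext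
    · simp only [Prod.fst_add, Prod.smul_fst, smul_eq_mul]
      rw [div_mul_eq_mul_div, div_mul_eq_mul_div, ← add_div, div_eq_iff h]
      simp only [det]
      ring
    · simp only [Prod.snd_add, Prod.smul_snd, smul_eq_mul]
      rw [div_mul_eq_mul_div, div_mul_eq_mul_div, ← add_div, div_eq_iff h]
      simp only [det]
      ring

theorem plNo_aff (p a b : ℝ × ℝ) (h : det a b ≠ 0) :
    ∃ g : (ℝ × ℝ) ≃ᵃ[ℝ] (ℝ × ℝ), ∀ x, g x = p + (x.1 • a + x.2 • b) := by
  refine ⟨(plNo_lin a b h).toAffineEquiv.trans (AffineEquiv.constVAdd ℝ (ℝ × ℝ) p), fun x => ?_⟩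
  rfl

theorem plNo_image (g : (ℝ × ℝ) ≃ᵃ[ℝ] (ℝ × ℝ)) (s t : ℝ) :
    g '' KK s t = convexHull ℝ {g (0, 0), g (1, 0), g (0, 1), g (s, t)} := by
  have h := (g : (ℝ × ℝ) →ᵃ[ℝ] (ℝ × ℝ)).image_convexHull ({(0, 0), (1, 0), (0, 1), (s, t)} : Set (ℝ × ℝ))
  have h2 : g '' KK s t = (g : (ℝ × ℝ) →ᵃ[ℝ] (ℝ × ℝ)) '' convexHull ℝ {(0, 0), (1, 0), (0, 1), (s, t)} := rfl
  rw [h2, h]
  congr 1
  simp only [image_insert_eq, image_singleton]
  rfl

theorem plane_shape {K : Set (ℝ × ℝ)} (hK : Polytope K) (hT : Tiles K) (hN : NoPar K) :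
    ∃ s t : ℝ, 0 < s ∧ 0 < t ∧ 1 ≤ s + t ∧ s ≠ 1 ∧ t ≠ 1 ∧
      ∃ g : (ℝ × ℝ) ≃ᵃ[ℝ] (ℝ × ℝ), K = g '' KK s t := by
  obtain ⟨n, v, hv, rfl⟩ := exists_isPoly hK
  have hn3 := hv.three
  have hn4 : n ≤ 4 := by
    rcases good_of_tiles hv hT with h | ⟨rfl, i, h⟩ | ⟨rfl, i, h⟩
    · exact h
    · exfalso
      have hne : i ≠ i + 2 := by
        intro h1
        have h2 : i + 2 = i + 0 := by rw [add_zero]; exact h1.symm
        exact absurd (add_left_cancel h2) (by decide)
      apply noPar_det hv hN hne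
      have h3 : i + 2 + 1 = i + 3 := by rw [add_assoc]; congr 1
      rw [side, side, h3]
      exact h
    · exfalso
      have hne : i ≠ i + 3 := by
        intro h1
        have h2 : i + 3 = i + 0 := by rw [add_zero]; exact h1.symm
        exact absurd (add_left_cancel h2) (by decide)
      apply noPar_det hv hN hne
      have h3 : i + 3 + 1 = i + 4 := by rw [add_assoc]; congr 1
      rw [side, side, h3, h]
      simp only [det, Prod.fst_sub, Prod.snd_sub]
      ring
  have hcase : n = 3 ∨ n = 4 := by omega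
  rcases hcase with rfl | rfl
  · -- triangle
    have hD : 0 < det (v 1 - v 0) (v 2 - v 0) := hv.pos 0 2 (by decide) (by decide)
    obtain ⟨g, hg⟩ := plNo_aff (v 0) (v 1 - v 0) (v 2 - v 0) hD.ne'
    refine ⟨1 / 2, 1 / 2, by norm_num, by norm_num, by norm_num, by norm_num, by norm_num, g, ?_⟩
    have g0 : g (0, 0) = v 0 := by rw [hg]; simp
    have g1 : g (1, 0) = v 1 := by rw [hg]; simp
    have g2 : g (0, 1) = v 2 := by rw [hg]; simp
    have g3 : g (1 / 2, 1 / 2) = (1 / 2 : ℝ) • v 1 + (1 / 2 : ℝ) • v 2 := by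
      rw [hg]
      apply Prod.ext
      · simp only [Prod.fst_add, Prod.smul_fst, Prod.fst_sub, smul_eq_mul]; ring
      · simp only [Prod.snd_add, Prod.smul_snd, Prod.snd_sub, smul_eq_mul]; ring
    rw [plNo_image, g0, g1, g2, g3]
    apply Subset.antisymm
    · apply convexHull_mono
      rintro _ ⟨i, rfl⟩
      fin_cases i
      · exact Or.inl rfl
      · exact Or.inr (Or.inl rfl)
      · exact Or.inr (Or.inr (Or.inl rfl))
    · apply convexHull_min _ (convex_convexHull ℝ _)
      rintro x (rfl | rfl | rfl | rfl)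
      · exact vtx_mem_body v 0
      · exact vtx_mem_body v 1
      · exact vtx_mem_body v 2
      · exact convex_body v (vtx_mem_body v 1) (vtx_mem_body v 2) (by norm_num) (by norm_num)
          (by norm_num)
  · -- quadrilateral
    set a := v 1 - v 0 with ha
    set b := v 3 - v 0 with hb
    have hD : 0 < det a b := hv.pos 0 3 (by decide) (by decide)
    have h1 : 0 < det a (v 2 - v 0) := hv.pos 0 2 (by decide) (by decide)
    have h2 : 0 < det (v 0 - v 3) (v 2 - v 3) := hv.pos 3 2 (by decide) (by decide)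
    have h3 : 0 < det (v 2 - v 1) (v 3 - v 1) := hv.pos 1 3 (by decide) (by decide)
    have h13 : det (v 2 - v 1) (v 0 - v 3) ≠ 0 := noPar_det hv hN (i := 1) (j := 3) (by decide)
    have h02 : det (v 1 - v 0) (v 3 - v 2) ≠ 0 := noPar_det hv hN (i := 0) (j := 2) (by decide)
    obtain ⟨g, hg⟩ := plNo_aff (v 0) a b hD.ne'
    set s := det (v 2 - v 0) b / det a b with hs
    set t := det a (v 2 - v 0) / det a b with ht
    have hs' : s * det a b = det (v 2 - v 0) b := by rw [hs, div_mul_cancel₀ _ hD.ne']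
    have ht' : t * det a b = det a (v 2 - v 0) := by rw [ht, div_mul_cancel₀ _ hD.ne']
    have hv2 : v 2 = v 0 + (s • a + t • b) := by
      have h4 := (plNo_lin a b hD.ne').apply_symm_apply (v 2 - v 0)
      have h5 : s • a + t • b = v 2 - v 0 := h4
      rw [h5]; abel
    have hspos : 0 < s := by
      rw [hs]
      apply div_pos _ hD
      have : det (v 2 - v 0) b = det (v 0 - v 3) (v 2 - v 3) := by
        simp only [hb, det, Prod.fst_sub, Prod.snd_sub]; ring
      rw [this]; exact h2
    have htpos : 0 < t := by rw [ht]; exact div_pos h1 hD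
    have hst : 1 ≤ s + t := by
      have h4 : det (v 2 - v 1) (v 3 - v 1) = (s + t - 1) * det a b := by
        have h5 : (s + t - 1) * det a b = det (v 2 - v 0) b + det a (v 2 - v 0) - det a b := by
          rw [← hs', ← ht']; ring
        rw [h5]
        simp only [ha, hb, det, Prod.fst_sub, Prod.snd_sub]; ring
      rw [h4] at h3
      have h5 := (pos_iff_pos_of_mul_pos h3).2 hD
      linarith
    have hs1 : s ≠ 1 := by
      intro h4
      apply h13
      have h5 : det (v 2 - v 1) (v 0 - v 3) = (1 - s) * det a b := by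
        have h6 : (1 - s) * det a b = det a b - det (v 2 - v 0) b := by rw [← hs']; ring
        rw [h6]
        simp only [ha, hb, det, Prod.fst_sub, Prod.snd_sub]; ring
      rw [h5, h4]; ring
    have ht1 : t ≠ 1 := by
      intro h4
      apply h02
      have h5 : det (v 1 - v 0) (v 3 - v 2) = (1 - t) * det a b := by
        have h6 : (1 - t) * det a b = det a b - det a (v 2 - v 0) := by rw [← ht']; ring
        rw [h6]
        simp only [ha, hb, det, Prod.fst_sub, Prod.snd_sub]; ring
      rw [h5, h4]; ring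
    refine ⟨s, t, hspos, htpos, hst, hs1, ht1, g, ?_⟩
    have g0 : g (0, 0) = v 0 := by rw [hg]; simp
    have g1 : g (1, 0) = v 1 := by rw [hg]; simp [ha]
    have g2 : g (0, 1) = v 3 := by rw [hg]; simp [hb]
    have g3 : g (s, t) = v 2 := by rw [hg]; exact hv2.symm
    rw [plNo_image, g0, g1, g2, g3]
    show convexHull ℝ (range v) = _
    congr 1
    ext x
    constructor
    · rintro ⟨i, rfl⟩
      fin_cases i
      · exact Or.inl rfl
      · exact Or.inr (Or.inl rfl)
      · exact Or.inr (Or.inr (Or.inr rfl))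
      · exact Or.inr (Or.inr (Or.inl rfl))
    · rintro (rfl | rfl | rfl | rfl)
      · exact ⟨0, rfl⟩
      · exact ⟨1, rfl⟩
      · exact ⟨3, rfl⟩
      · exact ⟨2, rfl⟩

end Pool.PT74
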