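import Pool.Agent.PT74.Suf

set_option autoImplicit false
set_option linter.unusedSectionVars false

/-!
# PT74/SufC: the shapes have at most n pairs of parallel facets

`facet_of_rep`: `P = {x | ∀ k ∈ A, ⟪k, x⟫ ≤ b k}` for a finite set `A` of nonzero vectors: every facet normal `w` is a
positive multiple of some `k ∈ A`.  (`face P w` is covered by the sets `{x ∈ face P w | ⟪k, x⟫ = b k}`, `k ∈ A` -- otherwise
some `x + e w ∈ P`, as in `face_cover` (PT56/HRepF) -- and such a set is null for the measure of `face P w` if `k` is not a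
multiple of `w` (`level_null`, `vol_prism_face`); `k = - c w`, `c > 0` is impossible: `P` has interior points.)
`suf_card`: with the Riesz vectors of the linear parts of the four functionals of `KK_eq` and of the coordinates
`z i`, `1 - z i` composed with `f.symm`: a facet normal `w` such that `-w` is a facet normal is a multiple of the vector of
some coordinate `z i` (no two of the four functionals of `KK_eq` are opposite since `s ≠ 1`, `t ≠ 1`), so `PN P` is
contained in the set of the `± W i`, `W i` the normalised vectors.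
-/

namespace Pool.PT74

open Set Filter Topology MeasureTheory
open scoped RealInnerProductSpace ENNReal
open Pool.PT56

variable {E : Type} [NormedAddCommGroup E] [InnerProductSpace ℝ E] [FiniteDimensional ℝ E]
  [MeasurableSpace E] [BorelSpace E]

theorem facet_of_rep {P : Set E} (hP : Polytope P) {A : Finset E} {b : E → ℝ}
    (hA : ∀ x, x ∈ P ↔ ∀ k ∈ A, ⟪k, x⟫ ≤ b k) {w : E} (hw : Facet P w) :
    ∃ k ∈ A, ∃ r : ℝ, 0 < r ∧ w = r • k := by
  classical
  by_contra hcon
  push Not at hcon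
  have hPc := hP.compact
  have hw1 := hw.1
  have hww : ⟪w, w⟫ = 1 := by rw [real_inner_self_eq_norm_sq, hw1]; norm_num
  have hpos := hw.2
  rw [vol_prism_face hPc hw1] at hpos
  -- a generic point of the facet
  have hex : ∃ x ∈ face P w, ∀ k ∈ A, (∃ y : (ℝ ∙ w)ᗮ, ⟪k, (y : E)⟫ ≠ 0) → ⟪k, x⟫ ≠ b k := by
    by_contra hc
    push Not at hc
    apply hpos
    have hsub : (fun y : (ℝ ∙ w)ᗮ => spt P w • w + (y : E)) ⁻¹' (face P w) ⊆
        ⋃ k ∈ {k | k ∈ A ∧ ∃ y : (ℝ ∙ w)ᗮ, ⟪k, (y : E)⟫ ≠ 0},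
          {y : (ℝ ∙ w)ᗮ | ⟪k, (y : E)⟫ = b k - ⟪k, spt P w • w⟫} := by
      intro y hy
      obtain ⟨k, hk, hk1, hk2⟩ := hc _ hy
      simp only [mem_iUnion]
      refine ⟨k, ⟨hk, hk1⟩, ?_⟩
      rw [inner_add_right] at hk2
      show ⟪k, (y : E)⟫ = _
      linarith
    have hfin : {k | k ∈ A ∧ ∃ y : (ℝ ∙ w)ᗮ, ⟪k, (y : E)⟫ ≠ 0}.Finite :=
      A.finite_toSet.subset (fun k hk => hk.1)
    refine measure_mono_null hsub ?_
    refine (measure_biUnion_null_iff hfin.countable).mpr ?_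
    rintro k ⟨-, y0, hy0⟩
    let φ : (ℝ ∙ w)ᗮ →ₗ[ℝ] ℝ :=
      { toFun := fun y => ⟪k, (y : E)⟫
        map_add' := fun a c => by rw [Submodule.coe_add, inner_add_right]
        map_smul' := fun c a => by rw [Submodule.coe_smul, inner_smul_right]; rfl }
    have hφ : φ ≠ 0 := by
      intro h
      exact hy0 (by rw [show ⟪k, (y0 : E)⟫ = φ y0 from rfl, h]; rfl)
    exact level_null hφ _
  obtain ⟨x, hx, hxk⟩ := hex
  have hxP := hx.1
  have h2 : ∀ᶠ r : ℝ in 𝓝[>] 0, ∀ k ∈ A, ⟪k, x + r • w⟫ ≤ b k := by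
    rw [Filter.eventually_all_finset]
    intro k hk
    by_cases hy : ∃ y : (ℝ ∙ w)ᗮ, ⟪k, (y : E)⟫ ≠ 0
    · have h1 : ⟪k, x⟫ < b k := lt_of_le_of_ne ((hA x).1 hxP k hk) (hxk k hk hy)
      have hc : Tendsto (fun r : ℝ => ⟪k, x + r • w⟫) (𝓝 0) (𝓝 ⟪k, x + (0:ℝ) • w⟫) := by
        have : Continuous (fun r : ℝ => ⟪k, x + r • w⟫) := by fun_prop
        exact this.tendsto 0
      rw [zero_smul, add_zero] at hc
      have h3 : ∀ᶠ r : ℝ in 𝓝[>] 0, ⟪k, x + r • w⟫ < b k :=
        (hc.eventually_lt_const h1).filter_mono nhdsWithin_le_nhds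
      filter_upwards [h3] with r hr using hr.le
    · push Not at hy
      have h4 := hy ⟨k - ⟪w, k⟫ • w, by
        rw [PT57.mem_perp_iff, inner_sub_right, inner_smul_right, hww]; ring⟩
      have h5 : k = ⟪w, k⟫ • w := by
        have h6 : ⟪k - ⟪w, k⟫ • w, k - ⟪w, k⟫ • w⟫ = 0 := by
          have h7 : ⟪w, k - ⟪w, k⟫ • w⟫ = 0 := by
            rw [inner_sub_right, inner_smul_right, hww]; ring
          rw [inner_sub_left, real_inner_smul_left, h7, h4]
          ring
        exact sub_eq_zero.mp (inner_self_eq_zero.mp h6)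
      have h8 : ⟪w, k⟫ ≤ 0 := by
        by_contra h9
        push Not at h9
        apply hcon k hk (⟪w, k⟫)⁻¹ (inv_pos.mpr h9)
        nth_rewrite 2 [h5]
        rw [smul_smul, inv_mul_cancel₀ h9.ne', one_smul]
      filter_upwards [self_mem_nhdsWithin] with r hr
      have hr' : (0:ℝ) < r := hr
      rw [inner_add_right, inner_smul_right, real_inner_comm w k]
      have h10 := (hA x).1 hxP k hk
      nlinarith
  obtain ⟨r, hr, hr0⟩ := (h2.and self_mem_nhdsWithin).exists
  have hr0' : (0:ℝ) < r := hr0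
  have h4 := (hA _).2 hr
  have h5 := hx.2 _ h4
  rw [inner_add_right, inner_smul_right, hww] at h5
  linarith

/-- the same for an indexed family of inequalities -/
theorem sufC_index {P : Set E} (hP : Polytope P) {ι : Type} [Fintype ι] {K : ι → E} {c : ι → ℝ}
    (hK : ∀ x, x ∈ P ↔ ∀ i, ⟪K i, x⟫ ≤ c i) {w : E} (hw : Facet P w) :
    ∃ i, ∃ r : ℝ, 0 < r ∧ w = r • K i := by
  classical
  have hPc := hP.compact
  have hne : P.Nonempty := hP.2.mono interior_subset
  have hspt : ∀ i, spt P (K i) ≤ c i := by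
    intro i
    apply csSup_le (hne.image _)
    rintro _ ⟨x, hx, rfl⟩
    exact (hK x).1 hx i
  obtain ⟨k, hk, r, hr, h⟩ := facet_of_rep hP (A := Finset.univ.image K) (b := spt P) (w := w) (by
    intro x
    constructor
    · intro hx k _
      exact spt_le hPc hx k
    · intro h
      rw [hK]
      intro i
      exact (h (K i) (Finset.mem_image_of_mem _ (Finset.mem_univ i))).trans (hspt i)) hw
  obtain ⟨i, -, rfl⟩ := Finset.mem_image.mp hk
  exact ⟨i, r, hr, h⟩

/-- the standard dot product -/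
noncomputable def sufCDot {n : ℕ} (q : (ℝ × ℝ) × (Fin n → ℝ)) :
    ((ℝ × ℝ) × (Fin n → ℝ)) →ₗ[ℝ] ℝ where
  toFun := fun p => q.1.1 * p.1.1 + q.1.2 * p.1.2 + ∑ i, q.2 i * p.2 i
  map_add' := by
    intro x y
    simp only [Prod.fst_add, Prod.snd_add, Pi.add_apply, mul_add, Finset.sum_add_distrib]
    ring
  map_smul' := by
    intro a x
    simp only [Prod.smul_fst, Prod.smul_snd, Pi.smul_apply, smul_eq_mul, RingHom.id_apply,
      mul_add, Finset.mul_sum]
    congr 1
    · ring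
    · exact Finset.sum_congr rfl (fun i _ => by ring)

theorem sufCDot_apply {n : ℕ} (q p : (ℝ × ℝ) × (Fin n → ℝ)) :
    sufCDot q p = q.1.1 * p.1.1 + q.1.2 * p.1.2 + ∑ i, q.2 i * p.2 i := rfl

/-- the vector of the functional `sufCDot q` composed with a linear map -/
noncomputable def sufCVec {n : ℕ} (L : E →ₗ[ℝ] ((ℝ × ℝ) × (Fin n → ℝ)))
    (q : (ℝ × ℝ) × (Fin n → ℝ)) : E :=
  (InnerProductSpace.toDual ℝ E).symm (LinearMap.toContinuousLinearMap ((sufCDot q).comp L))

theorem sufCVec_inner {n : ℕ} (L : E →ₗ[ℝ] ((ℝ × ℝ) × (Fin n → ℝ)))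
    (q : (ℝ × ℝ) × (Fin n → ℝ)) (x : E) : ⟪sufCVec L q, x⟫ = sufCDot q (L x) := by
  unfold sufCVec
  rw [InnerProductSpace.toDual_symm_apply]
  rfl

/-- the coefficient vectors of the inequalities -/
noncomputable def sufCQ {n : ℕ} (s t : ℝ) : Fin 4 ⊕ (Fin n ⊕ Fin n) → (ℝ × ℝ) × (Fin n → ℝ)
  | Sum.inl 0 => ((-1, 0), 0)
  | Sum.inl 1 => ((0, -1), 0)
  | Sum.inl 2 => ((t, 1 - s), 0)
  | Sum.inl 3 => ((1 - t, s), 0)
  | Sum.inr (Sum.inl m) => ((0, 0), -Pi.single m 1)
  | Sum.inr (Sum.inr m) => ((0, 0), Pi.single m 1)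

/-- the right sides of the inequalities -/
noncomputable def sufCC {n : ℕ} (s t : ℝ) : Fin 4 ⊕ (Fin n ⊕ Fin n) → ℝ
  | Sum.inl 0 => 0
  | Sum.inl 1 => 0
  | Sum.inl 2 => t
  | Sum.inl 3 => s
  | Sum.inr (Sum.inl _) => 0
  | Sum.inr (Sum.inr _) => 1

theorem sufC_mem {n : ℕ} {s t : ℝ} (hs : 0 < s) (ht : 0 < t) (hst : 1 ≤ s + t)
    (p : (ℝ × ℝ) × (Fin n → ℝ)) :
    p ∈ KK s t ×ˢ Icc (0 : Fin n → ℝ) 1 ↔ ∀ i, sufCDot (sufCQ s t i) p ≤ sufCC s t i := by
  rw [mem_prod, KK_eq hs ht hst, Sum.forall, Sum.forall]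
  have e0 : sufCDot (sufCQ (n := n) s t (Sum.inl 0)) p = -p.1.1 := by
    rw [sufCDot_apply]; simp [sufCQ]
  have e1 : sufCDot (sufCQ (n := n) s t (Sum.inl 1)) p = -p.1.2 := by
    rw [sufCDot_apply]; simp [sufCQ]
  have e2 : sufCDot (sufCQ (n := n) s t (Sum.inl 2)) p = t * p.1.1 + (1 - s) * p.1.2 := by
    rw [sufCDot_apply]; simp [sufCQ]
  have e3 : sufCDot (sufCQ (n := n) s t (Sum.inl 3)) p = (1 - t) * p.1.1 + s * p.1.2 := by
    rw [sufCDot_apply]; simp [sufCQ]
  have e4 : ∀ m, sufCDot (sufCQ (n := n) s t (Sum.inr (Sum.inl m))) p = -p.2 m := by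
    intro m
    rw [sufCDot_apply]
    simp [sufCQ, Pi.single_apply]
  have e5 : ∀ m, sufCDot (sufCQ (n := n) s t (Sum.inr (Sum.inr m))) p = p.2 m := by
    intro m
    rw [sufCDot_apply]
    simp [sufCQ, Pi.single_apply]
  constructor
  · rintro ⟨⟨h1, h2, h3, h4⟩, h5, h6⟩
    refine ⟨?_, ?_, ?_⟩
    · intro i
      fin_cases i
      · show sufCDot (sufCQ (n := n) s t (Sum.inl 0)) p ≤ 0
        rw [e0]; linarith
      · show sufCDot (sufCQ (n := n) s t (Sum.inl 1)) p ≤ 0
        rw [e1]; linarith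
      · show sufCDot (sufCQ (n := n) s t (Sum.inl 2)) p ≤ t
        rw [e2]; exact h3
      · show sufCDot (sufCQ (n := n) s t (Sum.inl 3)) p ≤ s
        rw [e3]; exact h4
    · intro m
      rw [e4]
      have := h5 m
      show -p.2 m ≤ 0
      simp only [Pi.zero_apply] at this
      linarith
    · intro m
      rw [e5]
      exact h6 m
  · rintro ⟨h, h5, h6⟩
    have h0 := h 0
    have h1 := h 1
    have h2 := h 2
    have h3 := h 3
    rw [e0] at h0
    rw [e1] at h1
    rw [e2] at h2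
    rw [e3] at h3
    simp only [sufCC] at h0 h1 h2 h3
    refine ⟨⟨by linarith, by linarith, h2, h3⟩, ?_, ?_⟩
    · intro m
      have := h5 m
      rw [e4] at this
      simp only [sufCC] at this
      show (0:ℝ) ≤ p.2 m
      linarith
    · intro m
      have := h6 m
      rw [e5] at this
      exact this

/-- two functionals with a negative ratio are coordinates -/
theorem sufC_opp {n : ℕ} {s t : ℝ} (hs : 0 < s) (ht : 0 < t) (hs1 : s ≠ 1) (ht1 : t ≠ 1) {ρ : ℝ}
    (hρ : 0 < ρ) {i j : Fin 4 ⊕ (Fin n ⊕ Fin n)}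
    (h : ∀ p, sufCDot (sufCQ s t j) p = -ρ * sufCDot (sufCQ s t i) p) :
    ∃ m : Fin n, i = Sum.inr (Sum.inl m) ∨ i = Sum.inr (Sum.inr m) := by
  have ha : (sufCQ s t j).1.1 = -ρ * (sufCQ s t i).1.1 := by
    have := h ((1, 0), 0)
    simpa [sufCDot_apply] using this
  have hb : (sufCQ s t j).1.2 = -ρ * (sufCQ s t i).1.2 := by
    have := h ((0, 1), 0)
    simpa [sufCDot_apply] using this
  have h1 : 1 - s ≠ 0 := sub_ne_zero.mpr (Ne.symm hs1)
  have h2 : 1 - t ≠ 0 := sub_ne_zero.mpr (Ne.symm ht1)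
  -- `x (1 - ρ) = 1` and `y (1 - ρ) = - ρ` is impossible for positive `x`, `y`
  have key : ∀ x y : ℝ, 0 < x → 0 < y → x * (1 - ρ) = 1 → y * (1 - ρ) = -ρ → False := by
    intro x y hx hy e1 e2
    have h3 : 0 < 1 - ρ := by
      by_contra h4
      push Not at h4
      nlinarith
    nlinarith [mul_pos hy h3]
  rcases i with i | i | i
  · exfalso
    rcases j with j | j | j
    · fin_cases i <;> fin_cases j <;> simp [sufCQ, hρ.ne', h1, h2, hs.ne', ht.ne'] at ha hb
      · linarith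
      · linarith
      · nlinarith [mul_pos hρ ht]
      · exact key t s ht hs (by linarith) (by linarith)
      · exact key s t hs ht (by linarith) (by linarith)
      · nlinarith [mul_pos hρ hs]
    · fin_cases i <;> simp [sufCQ, hρ.ne', h1, h2, hs.ne', ht.ne'] at ha hb
      all_goals linarith
    · fin_cases i <;> simp [sufCQ, hρ.ne', h1, h2, hs.ne', ht.ne'] at ha hb
      all_goals linarith
  · exact ⟨i, Or.inl rfl⟩
  · exact ⟨i, Or.inr rfl⟩

theorem suf_card {n : ℕ} {s t : ℝ} (hs : 0 < s) (ht : 0 < t) (hst : 1 ≤ s + t) (hs1 : s ≠ 1)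
    (ht1 : t ≠ 1) (f : ((ℝ × ℝ) × (Fin n → ℝ)) ≃ᵃ[ℝ] E)
    (hP : Polytope (f '' (KK s t ×ˢ Icc (0 : Fin n → ℝ) 1))) :
    (PN (f '' (KK s t ×ˢ Icc (0 : Fin n → ℝ) 1))).ncard ≤ 2 * n := by
  classical
  set P := f '' (KK s t ×ˢ Icc (0 : Fin n → ℝ) 1) with hPdef
  let L : E →ₗ[ℝ] ((ℝ × ℝ) × (Fin n → ℝ)) := f.symm.linear.toLinearMap
  have hsurj : ∀ p, ∃ x, L x = p := fun p => ⟨f.symm.linear.symm p, by simp [L]⟩
  have hL : ∀ x, f.symm x = L x + f.symm 0 := by
    intro x
    have := f.symm.map_vadd 0 x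
    simp only [vadd_eq_add, add_zero] at this
    exact this
  have hK : ∀ x, x ∈ P ↔ ∀ i, ⟪sufCVec L (sufCQ s t i), x⟫ ≤
      sufCC s t i - sufCDot (sufCQ s t i) (f.symm 0) := by
    intro x
    have h1 : x ∈ P ↔ f.symm x ∈ KK s t ×ˢ Icc (0 : Fin n → ℝ) 1 := by
      rw [hPdef]
      constructor
      · rintro ⟨p, hp, rfl⟩
        simpa using hp
      · intro h
        exact ⟨f.symm x, h, by simp⟩
    rw [h1, sufC_mem hs ht hst]
    refine forall_congr' (fun i => ?_)
    rw [sufCVec_inner, hL x, map_add]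
    constructor
    · intro h; linarith
    · intro h; linarith
  -- the normalised vectors of the coordinates
  let V : Fin n → E := fun m => sufCVec L ((0, 0), Pi.single m 1)
  let W : Fin n → E := fun m => ‖V m‖⁻¹ • V m
  have hVneg : ∀ m, sufCVec L ((0, 0), -Pi.single m 1) = -V m := by
    intro m
    apply ext_inner_right ℝ
    intro x
    rw [inner_neg_left, sufCVec_inner, sufCVec_inner, sufCDot_apply, sufCDot_apply]
    simp
  have hsub : PN P ⊆ range W ∪ range (fun m => -W m) := by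
    rintro w ⟨hw1, hw2⟩
    obtain ⟨i, r, hr, h1⟩ := sufC_index hP hK hw1
    obtain ⟨j, r', hr', h2⟩ := sufC_index hP hK hw2
    have hneg : ∀ p, sufCDot (sufCQ s t j) p = -(r / r') * sufCDot (sufCQ s t i) p := by
      intro p
      obtain ⟨x, rfl⟩ := hsurj p
      rw [← sufCVec_inner, ← sufCVec_inner]
      have h3 : sufCVec L (sufCQ s t j) = (-(r / r')) • sufCVec L (sufCQ s t i) := by
        have h4 : r' • sufCVec L (sufCQ s t j) = -(r • sufCVec L (sufCQ s t i)) := by
          rw [← h2, ← h1]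
        have h5 : sufCVec L (sufCQ s t j) = r'⁻¹ • (r' • sufCVec L (sufCQ s t j)) := by
          rw [smul_smul, inv_mul_cancel₀ hr'.ne', one_smul]
        rw [h5, h4, smul_neg, smul_smul, neg_smul]
        congr 2
        field_simp
      rw [h3, real_inner_smul_left]
    obtain ⟨m, hm⟩ := sufC_opp hs ht hs1 ht1 (div_pos hr hr') hneg
    have hwn : ‖w‖ = 1 := hw1.1
    rcases hm with rfl | rfl
    · right
      refine ⟨m, ?_⟩
      have h6 : w = -(r • V m) := by
        rw [h1]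
        show r • sufCVec L ((0, 0), -Pi.single m 1) = _
        rw [hVneg, smul_neg]
      have h7 : r * ‖V m‖ = 1 := by
        rw [h6, norm_neg, norm_smul, Real.norm_of_nonneg hr.le] at hwn
        exact hwn
      show -(‖V m‖⁻¹ • V m) = w
      rw [h6]
      congr 2
      exact (eq_inv_of_mul_eq_one_left h7).symm
    · left
      refine ⟨m, ?_⟩
      have h6 : w = r • V m := h1
      have h7 : r * ‖V m‖ = 1 := by
        rw [h6, norm_smul, Real.norm_of_nonneg hr.le] at hwn
        exact hwn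
      show ‖V m‖⁻¹ • V m = w
      rw [h6]
      congr 1
      exact (eq_inv_of_mul_eq_one_left h7).symm
  have hfin : (range W ∪ range (fun m => -W m)).Finite :=
    (finite_range W).union (finite_range _)
  calc (PN P).ncard ≤ (range W ∪ range (fun m => -W m)).ncard := ncard_le_ncard hsub hfin
    _ ≤ (range W).ncard + (range (fun m => -W m)).ncard := ncard_union_le _ _
    _ ≤ n + n := by
        have h1 : ∀ g : Fin n → E, (range g).ncard ≤ n := by
          intro g
          rw [← image_univ]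
          refine (ncard_image_le (finite_univ)).trans ?_
          rw [ncard_univ, Nat.card_eq_fintype_card, Fintype.card_fin]
        exact add_le_add (h1 _) (h1 _)
    _ = 2 * n := by ring

end Pool.PT74
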