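import Pool.Agent.PT74.Prod
import Pool.Agent.PT74.PlNo
import Pool.Agent.PT74.SufC

set_option autoImplicit false
set_option linter.unusedSectionVars false

/-!
# PT74/GMain: tiles with few pairs of parallel facets
-/

namespace Pool.PT74

open Set Filter Topology MeasureTheory
open scoped RealInnerProductSpace ENNReal
open Pool.PT56

variable {E : Type} [NormedAddCommGroup E] [InnerProductSpace ℝ E] [FiniteDimensional ℝ E]
  [MeasurableSpace E] [BorelSpace E]

/-- `P` is an affine image of the product of a triangle or quadrilateral without parallel sides and a cube -/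
def Shape (n : ℕ) (P : Set E) : Prop :=
  ∃ s t : ℝ, 0 < s ∧ 0 < t ∧ 1 ≤ s + t ∧ s ≠ 1 ∧ t ≠ 1 ∧
    ∃ f : ((ℝ × ℝ) × (Fin n → ℝ)) ≃ᵃ[ℝ] E, P = f '' (KK s t ×ˢ Icc (0 : Fin n → ℝ) 1)

/-- the facets with a parallel facet and their normals -/
theorem ncard_facets {P : Set E} (hP : Polytope P) :
    {F ∈ Facets P | ∃ G ∈ Facets P, G ≠ F ∧ vectorSpan ℝ G = vectorSpan ℝ F}.ncard =
      (PN P).ncard := by
  have hsub : PN P ⊆ FN P := fun w hw => hw.1
  rw [← Set.InjOn.ncard_image ((face_inj hP).mono hsub)]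
  congr 1
  ext F
  constructor
  · rintro ⟨hF, G, hG, hne, hsp⟩
    rw [facets_eq hP] at hF hG
    obtain ⟨u, hu, rfl⟩ := hF
    obtain ⟨u', hu', rfl⟩ := hG
    rcases (parallel_iff hP hu hu').1 hsp.symm with h | h
    · subst h
      exact absurd rfl hne
    · subst h
      exact ⟨u, ⟨hu, hu'⟩, rfl⟩
  · rintro ⟨u, ⟨hu, hu'⟩, rfl⟩
    refine ⟨?_, face P (-u), ?_, ?_, ?_⟩
    · rw [facets_eq hP]
      exact ⟨u, hu, rfl⟩
    · rw [facets_eq hP]
      exact ⟨-u, hu', rfl⟩
    · intro h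
      have h1 : -u = u := face_inj hP hu' hu h
      have h2 : u = 0 := by
        have h3 : (2 : ℝ) • u = 0 := by
          rw [two_smul]
          nth_rewrite 1 [← h1]
          exact neg_add_cancel u
        exact (smul_eq_zero.1 h3).resolve_left (by norm_num)
      have h4 : ‖u‖ = 1 := hu.1
      rw [h2, norm_zero] at h4
      exact zero_ne_one h4
    · exact ((parallel_iff hP hu hu').2 (Or.inr rfl)).symm

/-- the affine map that takes the unit cube to the box `Icc a b` -/
private noncomputable def bx {n : ℕ} (a b : Fin n → ℝ) (h : ∀ i, a i < b i) :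
    (Fin n → ℝ) ≃ᵃ[ℝ] (Fin n → ℝ) :=
  (LinearEquiv.piCongrRight (R := ℝ) (φ := fun _ : Fin n => ℝ) (ψ := fun _ : Fin n => ℝ)
    (fun i => LinearEquiv.smulOfNeZero ℝ ℝ (b i - a i) (sub_pos.2 (h i)).ne')).toAffineEquiv.trans
    (AffineEquiv.constVAdd ℝ (Fin n → ℝ) a)

private theorem bx_apply {n : ℕ} (a b : Fin n → ℝ) (h : ∀ i, a i < b i) (x : Fin n → ℝ) (i : Fin n) :
    bx a b h x i = a i + (b i - a i) * x i := by
  simp [bx]

private theorem bx_image {n : ℕ} (a b : Fin n → ℝ) (h : ∀ i, a i < b i) :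
    bx a b h '' Icc (0 : Fin n → ℝ) 1 = Icc a b := by
  ext y
  constructor
  · rintro ⟨x, hx, rfl⟩
    constructor
    · intro i
      rw [bx_apply]
      have h1 := mul_nonneg (sub_pos.2 (h i)).le (hx.1 i)
      linarith
    · intro i
      rw [bx_apply]
      have h1 := mul_le_mul_of_nonneg_left (hx.2 i) (sub_pos.2 (h i)).le
      simp only [Pi.one_apply] at h1
      linarith
  · intro hy
    refine ⟨fun i => (y i - a i) / (b i - a i), ⟨?_, ?_⟩, ?_⟩
    · intro i
      exact div_nonneg (sub_nonneg.2 (hy.1 i)) (sub_pos.2 (h i)).le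
    · intro i
      show (y i - a i) / (b i - a i) ≤ 1
      rw [div_le_one (sub_pos.2 (h i))]
      have := hy.2 i
      linarith
    · funext i
      rw [bx_apply, mul_div_cancel₀ _ (sub_pos.2 (h i)).ne']
      ring

theorem shape_of {n : ℕ} (hn : Module.finrank ℝ E = n + 2) {P : Set E} (hP : Polytope P)
    (hT : Tiles P) (h : (PN P).ncard = 2 * n) : Shape n P := by
  obtain ⟨T, K, a, b, hab, himg, hK, hKT, hN⟩ := prod_form hn hP hT h
  obtain ⟨s, t, hs, ht, hst, hs1, ht1, g, hg⟩ := plane_shape hK hKT hN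
  refine ⟨s, t, hs, ht, hst, hs1, ht1,
    (g.prodCongr (bx a b hab)).trans T.symm.toAffineEquiv, ?_⟩
  have h1 : (g.prodCongr (bx a b hab)) '' (KK s t ×ˢ Icc (0 : Fin n → ℝ) 1) = T '' P := by
    rw [himg, hg, ← bx_image a b hab, ← Set.prodMap_image_prod]
    rfl
  have h2 : ((g.prodCongr (bx a b hab)).trans T.symm.toAffineEquiv) ''
      (KK s t ×ˢ Icc (0 : Fin n → ℝ) 1) =
      T.symm '' ((g.prodCongr (bx a b hab)) '' (KK s t ×ˢ Icc (0 : Fin n → ℝ) 1)) := by
    rw [Set.image_image]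
    rfl
  rw [h2, h1, Set.image_image]
  simp

theorem gmain {n : ℕ} (hn : Module.finrank ℝ E = n + 2) {P : Set E} (hP : Polytope P) :
    (Tiles P → 2 * n ≤ (PN P).ncard) ∧ (Tiles P ∧ (PN P).ncard = 2 * n ↔ Shape n P) := by
  have hge : Tiles P → 2 * n ≤ (PN P).ncard := by
    intro hT
    have := pairs_ge hP hT
    omega
  refine ⟨hge, ?_⟩
  constructor
  · rintro ⟨hT, h⟩
    exact shape_of hn hP hT h
  · rintro ⟨s, t, hs, ht, hst, hs1, ht1, f, rfl⟩
    have hT := suf_tiles hs ht hst f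
    exact ⟨hT, le_antisymm (suf_card hs ht hst hs1 ht1 f hP) (hge hT)⟩

end Pool.PT74
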