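import Mathlib
import Pool.Agent.PT74.GMain

set_option autoImplicit false

open Module
open scoped RealInnerProductSpace

namespace Pool.Agent.Results.MP_29fbf2_co.FewPairs

/-- There is a tiling of the space in which every tile is a translate of `P` or a translate
of `-P`. -/
def TilesByTranslatesAndNegatives {d : ℕ} (P : Set (EuclideanSpace ℝ (Fin d))) : Prop :=
  ∃ F : Set (Set (EuclideanSpace ℝ (Fin d))),
    (∀ T ∈ F, ∃ t : EuclideanSpace ℝ (Fin d), T = (fun x => t + x) '' P ∨ T = (fun x => t - x) '' P) ∧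
    ⋃₀ F = Set.univ ∧
    ∀ A ∈ F, ∀ B ∈ F, A ≠ B → Disjoint (interior A) (interior B)

/-- The facets of `P`: the sets of the points of `P` at which a nonzero linear functional `⟪u, ·⟫`
is maximal over `P`, when this set has dimension `d - 1`. -/
def facets {d : ℕ} (P : Set (EuclideanSpace ℝ (Fin d))) : Set (Set (EuclideanSpace ℝ (Fin d))) :=
  {F | ∃ u : EuclideanSpace ℝ (Fin d), u ≠ 0 ∧ F = {x | x ∈ P ∧ ∀ y ∈ P, ⟪u, y⟫ ≤ ⟪u, x⟫} ∧
    finrank ℝ (vectorSpan ℝ F) + 1 = d}

/-- The facets of `P` that are parallel to another facet of `P`. -/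
def parallelFacets {d : ℕ} (P : Set (EuclideanSpace ℝ (Fin d))) :
    Set (Set (EuclideanSpace ℝ (Fin d))) :=
  {F ∈ facets P | ∃ G ∈ facets P, G ≠ F ∧ vectorSpan ℝ G = vectorSpan ℝ F}

/-- The convex hull of `(0, 0), (1, 0), (s, t), (0, 1)`: for `s, t > 0` and `s + t > 1` a convex
quadrilateral with these vertices, for `s, t > 0` and `s + t = 1` a triangle.  The side from `(1, 0)`
to `(s, t)` is parallel to the opposite side if `s = 1`, the side from `(s, t)` to `(0, 1)` if `t = 1`. -/
def polygon (s t : ℝ) : Set (ℝ × ℝ) := convexHull ℝ {(0, 0), (1, 0), (s, t), (0, 1)}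

/-- `P` is an affine image of `K × [0,1]^(d-2)`, where `K` is a triangle or a convex quadrilateral
without parallel sides. -/
def IsPolygonTimesCube {d : ℕ} (P : Set (EuclideanSpace ℝ (Fin d))) : Prop :=
  ∃ s t : ℝ, 0 < s ∧ 0 < t ∧ 1 ≤ s + t ∧ s ≠ 1 ∧ t ≠ 1 ∧
    ∃ f : ((ℝ × ℝ) × (Fin (d - 2) → ℝ)) ≃ᵃ[ℝ] EuclideanSpace ℝ (Fin d),
      P = f '' (polygon s t ×ˢ Set.Icc (0 : Fin (d - 2) → ℝ) 1)

/-- **Tiles with few parallel facets.** A convex polytope in `ℝ^d`, `d ≥ 2`, that tiles the space by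
translates and negatives has at least `d - 2` pairs of parallel facets.  It has exactly `d - 2` if and
only if it is an affine image of `K × [0,1]^(d-2)`, where `K` is a triangle or a convex quadrilateral
without parallel sides (and all these polytopes tile). -/
theorem result {d : ℕ} (hd : 2 ≤ d) (V : Finset (EuclideanSpace ℝ (Fin d)))
    (hinterior : (interior (convexHull ℝ (V : Set (EuclideanSpace ℝ (Fin d))))).Nonempty) :
    (TilesByTranslatesAndNegatives (convexHull ℝ (V : Set (EuclideanSpace ℝ (Fin d)))) →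
      2 * (d - 2) ≤ (parallelFacets (convexHull ℝ (V : Set (EuclideanSpace ℝ (Fin d))))).ncard) ∧
    (TilesByTranslatesAndNegatives (convexHull ℝ (V : Set (EuclideanSpace ℝ (Fin d)))) ∧
      (parallelFacets (convexHull ℝ (V : Set (EuclideanSpace ℝ (Fin d))))).ncard = 2 * (d - 2) ↔
      IsPolygonTimesCube (convexHull ℝ (V : Set (EuclideanSpace ℝ (Fin d))))) := by
  set P := convexHull ℝ (V : Set (EuclideanSpace ℝ (Fin d))) with hPd
  have hP : PT56.Polytope P := ⟨⟨V, V.finite_toSet, rfl⟩, hinterior⟩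
  have hfr : finrank ℝ (EuclideanSpace ℝ (Fin d)) = d := finrank_euclideanSpace_fin
  have hF : facets P = PT56.Facets P := by
    unfold facets PT56.Facets
    rw [hfr]
    rfl
  have hpar : (parallelFacets P).ncard = (PT56.PN P).ncard := by
    unfold parallelFacets
    rw [hF]
    exact PT74.ncard_facets hP
  have hn : finrank ℝ (EuclideanSpace ℝ (Fin d)) = (d - 2) + 2 := by omega
  have hKK : ∀ s t, polygon s t = PT74.KK s t := by
    intro s t
    unfold polygon PT74.KK
    congr 1
    ext x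
    simp only [Set.mem_insert_iff, Set.mem_singleton_iff]
    tauto
  have h := PT74.gmain hn hP
  rw [hpar]
  refine ⟨h.1, ?_⟩
  have hS : PT74.Shape (d - 2) P ↔ IsPolygonTimesCube P := by
    unfold PT74.Shape IsPolygonTimesCube
    simp only [hKK]
  rw [← hS]
  exact h.2

end Pool.Agent.Results.MP_29fbf2_co.FewPairs
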