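import Pool.Agent.PT56.FPair
import Pool.Agent.PT56.FacC
import Pool.Agent.PT56.FDim

set_option autoImplicit false
set_option linter.unusedSectionVars false

/-!
# PT74/GBase: definitions for the equality case of the number of parallel pairs

Paper: note 3479 on MP_29fbf2_co.  `P` is a polytope in `E`, `finrank ℝ E = n + 2`, that tiles by translates and
negatives and has exactly `n` pairs of parallel facets.
-/

namespace Pool.PT74

open Set Filter Topology MeasureTheory
open scoped RealInnerProductSpace ENNReal
open Pool.PT56

section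

variable {E : Type} [NormedAddCommGroup E] [InnerProductSpace ℝ E] [FiniteDimensional ℝ E]
  [MeasurableSpace E] [BorelSpace E]

/-- the plane of `u` and `v` contains no facet normal with a parallel facet -/
def NoPN (P : Set E) (u v : E) : Prop :=
  ∀ w ∈ Submodule.span ℝ {u, v}, ¬ (Facet P w ∧ Facet P (-w))

/-- the plane of the orthonormal vectors `u`, `v` contains no facet normal with a parallel facet, and the
belt of this plane is not degenerate -/
structure Free (P : Set E) (u v : E) : Prop where
  nu : ‖u‖ = 1
  nv : ‖v‖ = 1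
  uv : ⟪u, v⟫ = 0
  gv : gv P u v ≠ 0
  no : NoPN P u v

/-- the `± W i` are exactly the normals of the facets that have a parallel facet -/
structure Cov {n : ℕ} (P : Set E) (W : Fin n → E) : Prop where
  mem : ∀ i, Facet P (W i) ∧ Facet P (-W i)
  cov : ∀ w, Facet P w → Facet P (-w) → ∃ i, w = W i ∨ w = -W i

/-- changing the sign of one vector -/
theorem Cov.flip {n : ℕ} {P : Set E} {W : Fin n → E} (h : Cov P W) (i : Fin n) :
    Cov P (Function.update W i (-W i)) := by
  constructor
  · intro j
    by_cases hj : j = i
    · subst hj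
      simp only [Function.update_self, neg_neg]
      exact ⟨(h.mem j).2, (h.mem j).1⟩
    · rw [Function.update_of_ne hj]
      exact h.mem j
  · intro w h1 h2
    obtain ⟨j, hj⟩ := h.cov w h1 h2
    refine ⟨j, ?_⟩
    by_cases hji : j = i
    · subst hji
      simp only [Function.update_self, neg_neg]
      exact hj.symm
    · rw [Function.update_of_ne hji]
      exact hj

end

/-- the triangle (`s + t = 1`) or quadrilateral with the vertices `(0, 0), (1, 0), (s, t), (0, 1)` -/
def KK (s t : ℝ) : Set (ℝ × ℝ) := convexHull ℝ {(0, 0), (1, 0), (0, 1), (s, t)}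

/-- `K` has no two parallel sides: there are no linear functional and no two different points of `K` where it is
minimal and two different points of `K` where it is maximal -/
def NoPar (K : Set (ℝ × ℝ)) : Prop :=
  ∀ p q : ℝ, (p, q) ≠ 0 → ∀ x ∈ K, ∀ y ∈ K, ∀ x' ∈ K, ∀ y' ∈ K, x ≠ y → x' ≠ y' →
    (∀ z ∈ K, p * z.1 + q * z.2 ≤ p * x.1 + q * x.2) →
    (∀ z ∈ K, p * z.1 + q * z.2 ≤ p * y.1 + q * y.2) →
    (∀ z ∈ K, p * x'.1 + q * x'.2 ≤ p * z.1 + q * z.2) →
    (∀ z ∈ K, p * y'.1 + q * y'.2 ≤ p * z.1 + q * z.2) → False

end Pool.PT74
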