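import Pool.Agent.PT74.GBase
import Pool.Agent.PT56.PolyH

set_option autoImplicit false
set_option linter.unusedSectionVars false

/-!
# PT74/Poly: polytopes of the plane are polygons

Let `S` be a finite set with `K = convexHull ℝ S` of minimal cardinality: no point of `S` is in the hull of the others; in
particular no three points of `S` are collinear (`poly_col`), and `S` has at least 3 points since `K` has interior points
(`poly_line_empty`).
`poly_next`: for `p ∈ S` there is `q ∈ S`, `q ≠ p`, with `0 < det (q - p) (r - p)` for all other `r ∈ S`: separate `p`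
strictly from the hull of the others (`f r > f p`), let `g` be a second functional with `(f, g)` positively oriented
and let `q` minimise `g (r - p) / f (r - p)`; ties are impossible (three collinear points).
The choice `σ : S → S` of a next point is injective (`poly_anti'`), so a point `P` of `S` is periodic; `n` = its minimal
period, `v i = σ^[i.val] P`.  `n ≥ 3` since `σ (σ P) = P` would put a third point strictly to the left and
strictly to the right of a line.  `IsPoly v`.  `S ⊆ body v` by `IsPoly.mem_body_iff` (PT56/PolyH), `body v ⊆ K` clear.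
-/

namespace Pool.PT74

open Set Filter Topology
open Pool.PT56

/-- `q` is the next vertex after `p`, counterclockwise -/
def PolyNx (S : Finset (ℝ × ℝ)) (p q : ℝ × ℝ) : Prop :=
  q ∈ S ∧ q ≠ p ∧ ∀ r ∈ S, r ≠ p → r ≠ q → 0 < det (q - p) (r - p)

theorem poly_mem_two {T : Set (ℝ × ℝ)} {x y z : ℝ × ℝ} (hx : x ∈ T) (hy : y ∈ T) {a b : ℝ}
    (ha : 0 ≤ a) (hb : 0 ≤ b) (hab : a + b = 1) (hz : z = a • x + b • y) : z ∈ convexHull ℝ T := by
  rw [hz]
  exact convex_convexHull ℝ T (subset_convexHull ℝ T hx) (subset_convexHull ℝ T hy) ha hb hab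

theorem poly_col {S : Finset (ℝ × ℝ)}
    (hout : ∀ a ∈ S, a ∉ convexHull ℝ ((S.erase a : Finset (ℝ × ℝ)) : Set (ℝ × ℝ))) {p q r : ℝ × ℝ}
    (hp : p ∈ S) (hq : q ∈ S) (hr : r ∈ S) (hqp : q ≠ p) (hrp : r ≠ p) (hrq : r ≠ q) :
    det (q - p) (r - p) ≠ 0 := by
  intro h
  obtain ⟨t, ht⟩ := polyH_parallel (sub_ne_zero.2 hqp) h
  have hre : r = (1 - t) • p + t • q := by
    have : r = p + t • (q - p) := by rw [← ht]; abel
    rw [this, sub_smul, one_smul, smul_sub]; abel
  rcases lt_trichotomy t 0 with h0 | h0 | h0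
  · -- `p` is between `q` and `r`
    have h1 : 0 < 1 - t := by linarith
    apply hout p hp
    apply poly_mem_two (x := r) (y := q) (a := 1 / (1 - t)) (b := -t / (1 - t))
      (by simp [hr, hrp]) (by simp [hq, hqp]) (by positivity)
      (div_nonneg (by linarith) h1.le) (by rw [← add_div, div_eq_one_iff_eq h1.ne']; ring)
    rw [hre, smul_add, smul_smul, smul_smul]
    have e1 : 1 / (1 - t) * (1 - t) = 1 := by field_simp
    have e2 : 1 / (1 - t) * t = t / (1 - t) := by field_simp
    rw [e1, e2, one_smul, add_assoc, ← add_smul]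
    have e3 : t / (1 - t) + -t / (1 - t) = 0 := by rw [← add_div]; simp
    rw [e3, zero_smul, add_zero]
  · apply hrp
    rw [hre, h0]; simp
  rcases lt_trichotomy t 1 with h1 | h1 | h1
  · apply hout r hr
    exact poly_mem_two (x := p) (y := q) (by simp [hp, hrp.symm]) (by simp [hq, hrq.symm])
      (by linarith) h0.le (by ring) hre
  · apply hrq
    rw [hre, h1]; simp
  · apply hout q hq
    apply poly_mem_two (x := r) (y := p) (a := 1 / t) (b := 1 - 1 / t)
      (by simp [hr, hrq]) (by simp [hp, hqp.symm]) (by positivity)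
      (by rw [sub_nonneg, div_le_one h0]; exact h1.le) (by ring)
    rw [hre, smul_add, smul_smul, smul_smul]
    have e1 : 1 / t * t = 1 := by field_simp
    have e2 : 1 / t * (1 - t) = -(1 - 1 / t) := by field_simp; ring
    rw [e1, e2, one_smul, neg_smul]; abel

theorem poly_next {S : Finset (ℝ × ℝ)}
    (hout : ∀ a ∈ S, a ∉ convexHull ℝ ((S.erase a : Finset (ℝ × ℝ)) : Set (ℝ × ℝ))) {p : ℝ × ℝ}
    (hp : p ∈ S) (hne : (S.erase p).Nonempty) : ∃ q, PolyNx S p q := by
  have hcl : IsClosed (convexHull ℝ ((S.erase p : Finset (ℝ × ℝ)) : Set (ℝ × ℝ))) :=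
    (Set.Finite.isCompact_convexHull (𝕜 := ℝ) (S.erase p).finite_toSet).isClosed
  obtain ⟨f, u, h1, h2⟩ := geometric_hahn_banach_point_closed (convex_convexHull ℝ _) hcl (hout p hp)
  set a := f (1, 0) with ha
  set b := f (0, 1) with hb
  have hf : ∀ x : ℝ × ℝ, f x = x.1 * a + x.2 * b := by
    intro x
    have : x = x.1 • ((1, 0) : ℝ × ℝ) + x.2 • ((0, 1) : ℝ × ℝ) := by
      ext <;> simp
    nth_rw 1 [this]
    rw [map_add, map_smul, map_smul, smul_eq_mul, smul_eq_mul]
  obtain ⟨q, hq, hmin⟩ := Finset.exists_min_image (S.erase p)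
    (fun r => (-b * (r - p).1 + a * (r - p).2) / f (r - p)) hne
  have hpos : ∀ r ∈ S.erase p, 0 < f (r - p) := by
    intro r hr
    have := h2 r (subset_convexHull ℝ _ hr)
    rw [map_sub]; linarith
  rw [Finset.mem_erase] at hq
  refine ⟨q, hq.2, hq.1, ?_⟩
  intro r hr hrp hrq
  have hne0 : det (q - p) (r - p) ≠ 0 := poly_col hout hp hq.2 hr hq.1 hrp hrq
  have hq' := hpos q (Finset.mem_erase.2 hq)
  have hr' := hpos r (Finset.mem_erase.2 ⟨hrp, hr⟩)
  have hle := hmin r (Finset.mem_erase.2 ⟨hrp, hr⟩)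
  rw [div_le_div_iff₀ hq' hr', hf, hf] at hle
  have hab : 0 < a ^ 2 + b ^ 2 := by
    rcases eq_or_ne a 0 with ha0 | ha0
    · have hb0 : b ≠ 0 := by
        intro hb0
        rw [hf, ha0, hb0] at hq'
        simp at hq'
      positivity
    · positivity
  have hid : (a ^ 2 + b ^ 2) * det (q - p) (r - p) =
      (-b * (r - p).1 + a * (r - p).2) * ((q - p).1 * a + (q - p).2 * b) -
      (-b * (q - p).1 + a * (q - p).2) * ((r - p).1 * a + (r - p).2 * b) := by
    simp only [det]; ring
  have hge : 0 ≤ (a ^ 2 + b ^ 2) * det (q - p) (r - p) := by rw [hid]; linarith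
  have := nonneg_of_mul_nonneg_right hge hab
  exact lt_of_le_of_ne this hne0.symm

theorem poly_line_empty {S : Set (ℝ × ℝ)} {w p : ℝ × ℝ} (hw : w ≠ 0)
    (h : ∀ x ∈ S, det w (x - p) = 0) : ¬ (interior (convexHull ℝ S)).Nonempty := by
  rintro ⟨x, hx⟩
  have hsub : convexHull ℝ S ⊆ {y | det w (y - p) = 0} := by
    apply convexHull_min h
    intro y hy z hz a b ha hb hab
    have hy' : det w (y - p) = 0 := hy
    have hz' : det w (z - p) = 0 := hz
    show det w (a • y + b • z - p) = 0
    have e : a • y + b • z - p = a • (y - p) + b • (z - p) := by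
      have : p = a • p + b • p := by rw [← add_smul, hab, one_smul]
      nth_rw 1 [this]
      rw [smul_sub, smul_sub]; abel
    rw [e, polyH_det_add, polyH_det_smul, polyH_det_smul, hy', hz']; ring
  have hpos : 0 < w.1 ^ 2 + w.2 ^ 2 := by
    rcases eq_or_ne w.1 0 with h1 | h1
    · have h2 : w.2 ≠ 0 := fun h2 => hw (Prod.ext h1 h2)
      positivity
    · positivity
  have hev : ∀ᶠ δ : ℝ in 𝓝 0, x + δ • ((w.2, -w.1) : ℝ × ℝ) ∈ interior (convexHull ℝ S) := by
    have hc : ContinuousAt (fun δ : ℝ => x + δ • ((w.2, -w.1) : ℝ × ℝ)) 0 := by fun_prop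
    apply hc.eventually
    apply isOpen_interior.mem_nhds
    simpa using hx
  have h2 : ∀ᶠ δ : ℝ in 𝓝[>] 0, x + δ • ((w.2, -w.1) : ℝ × ℝ) ∈ interior (convexHull ℝ S) :=
    hev.filter_mono nhdsWithin_le_nhds
  obtain ⟨δ, h3, h4⟩ := (h2.and self_mem_nhdsWithin).exists
  have h4' : 0 < δ := h4
  have h5 : det w (x + δ • ((w.2, -w.1) : ℝ × ℝ) - p) = 0 := hsub (interior_subset h3)
  have h6 : det w (x - p) = 0 := hsub (interior_subset hx)
  have e : x + δ • ((w.2, -w.1) : ℝ × ℝ) - p = (x - p) + δ • ((w.2, -w.1) : ℝ × ℝ) := by abel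
  rw [e, polyH_det_add, polyH_det_smul, h6] at h5
  have e2 : det w ((w.2, -w.1) : ℝ × ℝ) = -(w.1 ^ 2 + w.2 ^ 2) := by
    simp only [det]; ring
  rw [e2] at h5
  nlinarith [mul_pos h4' hpos]

/-- two opposite orientations -/
theorem poly_anti {p q r : ℝ × ℝ} (h1 : 0 < det (q - p) (r - p)) (h2 : 0 < det (p - q) (r - q)) :
    False := by
  have : det (p - q) (r - q) = - det (q - p) (r - p) := by
    simp only [det, Prod.fst_sub, Prod.snd_sub]; ring
  linarith

theorem poly_anti' {p p' q : ℝ × ℝ} (h1 : 0 < det (q - p) (p' - p))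
    (h2 : 0 < det (q - p') (p - p')) : False := by
  have : det (q - p') (p - p') = - det (q - p) (p' - p) := by
    simp only [det, Prod.fst_sub, Prod.snd_sub]; ring
  linarith

theorem exists_isPoly {K : Set (ℝ × ℝ)} (hK : Polytope K) :
    ∃ (n : ℕ) (v : ZMod n → ℝ × ℝ), IsPoly v ∧ K = body v := by
  classical
  obtain ⟨⟨S₀, hS₀f, hK₀⟩, hint⟩ := hK
  have hex : ∃ k, ∃ S : Finset (ℝ × ℝ), S.card = k ∧ K = convexHull ℝ (S : Set (ℝ × ℝ)) :=
    ⟨_, hS₀f.toFinset, rfl, by rw [hS₀f.coe_toFinset]; exact hK₀⟩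
  obtain ⟨S, hSc, hKS⟩ := Nat.find_spec hex
  -- no point is in the hull of the others
  have hout : ∀ a ∈ S, a ∉ convexHull ℝ ((S.erase a : Finset (ℝ × ℝ)) : Set (ℝ × ℝ)) := by
    intro a ha hmem
    have hT : K = convexHull ℝ ((S.erase a : Finset (ℝ × ℝ)) : Set (ℝ × ℝ)) := by
      rw [hKS]
      apply Subset.antisymm
      · apply convexHull_min _ (convex_convexHull ℝ _)
        intro x hx
        by_cases hxa : x = a
        · rw [hxa]; exact hmem
        · exact subset_convexHull ℝ _ (by simp only [Finset.coe_erase]; exact ⟨hx, hxa⟩)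
      · exact convexHull_mono (by simp)
    have h1 := Nat.find_min' hex ⟨S.erase a, rfl, hT⟩
    rw [← hSc] at h1
    exact absurd (Finset.card_erase_lt_of_mem ha) (not_lt.2 h1)
  rw [hKS] at hint
  -- at least three points
  have hthree : ∀ p ∈ S, ∀ q, q ≠ p → ∃ r ∈ S, r ≠ p ∧ r ≠ q := by
    intro p hp q hqp
    by_contra hno
    push Not at hno
    apply poly_line_empty (S := (S : Set (ℝ × ℝ))) (w := q - p) (p := p) (sub_ne_zero.2 hqp) _ hint
    intro x hx
    by_cases hxp : x = p
    · rw [hxp, sub_self, polyH_det_zero]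
    · rw [hno x hx hxp, polyH_det_self]
  have hnonempty : S.Nonempty := by
    rcases S.eq_empty_or_nonempty with h | h
    · rw [h] at hint; simp at hint
    · exact h
  have herase : ∀ p ∈ S, (S.erase p).Nonempty := by
    intro p hp
    obtain ⟨r, hr, hrp, -⟩ := hthree p hp (p + (1, 0)) (by
      intro h
      have := congrArg Prod.fst h
      simp at this)
    exact ⟨r, Finset.mem_erase.2 ⟨hrp, hr⟩⟩
  have hsucc : ∀ p : S, ∃ q : S, PolyNx S p q := by
    intro p
    obtain ⟨q, hq⟩ := poly_next hout p.2 (herase p p.2)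
    exact ⟨⟨q, hq.1⟩, hq⟩
  choose σ hσ using hsucc
  have hinj : Function.Injective σ := by
    intro p p' h
    by_contra hne
    have hne' : (p : ℝ × ℝ) ≠ p' := fun e => hne (Subtype.ext e)
    have h1 := (hσ p).2.2 p' p'.2 hne'.symm (by rw [h]; exact (hσ p').2.1.symm)
    have h2 := (hσ p').2.2 p p.2 hne' (by rw [← h]; exact (hσ p).2.1.symm)
    rw [← h] at h2
    exact poly_anti' h1 h2
  obtain ⟨p, hp⟩ := hnonempty
  set P : S := ⟨p, hp⟩ with hP
  have hper : P ∈ Function.periodicPts σ := hinj.mem_periodicPts P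
  set n := Function.minimalPeriod σ P with hn
  have hn0 : 0 < n := Function.minimalPeriod_pos_of_mem_periodicPts hper
  have : NeZero n := ⟨hn0.ne'⟩
  set v : ZMod n → ℝ × ℝ := fun i => (σ^[i.val] P : S) with hv
  have hvS : ∀ i, v i ∈ S := fun i => (σ^[i.val] P).2
  have hval : ∀ i : ZMod n, σ^[(i + 1).val] P = σ (σ^[i.val] P) := by
    intro i
    have e1 : (i + 1).val = (i.val + 1) % n := by
      have e2 : i + 1 = ((i.val + 1 : ℕ) : ZMod n) := by
        push_cast
        rw [ZMod.natCast_zmod_val]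
      nth_rw 1 [e2]
      rw [ZMod.val_natCast]
    rw [e1, ← Function.iterate_succ_apply' σ]
    exact Function.iterate_mod_minimalPeriod_eq
  have hnx : ∀ i : ZMod n, PolyNx S (v i) (v (i + 1)) := by
    intro i
    have := hσ (σ^[i.val] P)
    rw [← hval i] at this
    exact this
  have hvinj : Function.Injective v := by
    intro i j hij
    have h1 : σ^[i.val] P = σ^[j.val] P := Subtype.ext hij
    have h2 := Function.iterate_injOn_Iio_minimalPeriod (f := σ) (x := P) (ZMod.val_lt i)
      (ZMod.val_lt j) h1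
    exact ZMod.val_injective n h2
  have hn3 : 3 ≤ n := by
    by_contra hlt
    have h12 : n = 1 ∨ n = 2 := by omega
    rcases h12 with h | h
    · have h1 := (hnx 0).2.1
      apply h1
      congr 1
      have : Subsingleton (ZMod n) := by rw [h]; infer_instance
      exact Subsingleton.elim _ _
    · have h1 := hnx 0
      have h2 := hnx (0 + 1)
      have e : (0 + 1 + 1 : ZMod n) = 0 := by
        have : ((2 : ℕ) : ZMod n) = 0 := by
          rw [ZMod.natCast_eq_zero_iff, h]
        calc (0 + 1 + 1 : ZMod n) = ((2 : ℕ) : ZMod n) := by push_cast; norm_num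
          _ = 0 := this
      rw [e] at h2
      obtain ⟨r, hr, hr1, hr2⟩ := hthree (v 0) (hvS 0) (v (0 + 1)) h1.2.1
      exact poly_anti (h1.2.2 r hr hr1 hr2) (h2.2.2 r hr hr2 hr1)
  have hpoly : IsPoly v := by
    refine ⟨hn3, ?_⟩
    intro i j h1 h2
    exact (hnx i).2.2 (v j) (hvS j) (fun h => h1 (hvinj h)) (fun h => h2 (hvinj h))
  refine ⟨n, v, hpoly, ?_⟩
  rw [hKS]
  apply Subset.antisymm
  · apply convexHull_min _ (convex_body v)
    intro x hx
    rw [hpoly.mem_body_iff]
    intro i
    by_cases h1 : x = v i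
    · rw [h1, sub_self, polyH_det_zero]
    by_cases h2 : x = v (i + 1)
    · rw [h2]
      show 0 ≤ det (side v i) (side v i)
      rw [polyH_det_self]
    exact ((hnx i).2.2 x hx h1 h2).le
  · apply convexHull_mono
    rintro _ ⟨i, rfl⟩
    exact hvS i

end Pool.PT74
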