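import Pool.Agent.PT74.GBase

set_option autoImplicit false
set_option linter.unusedSectionVars false

/-!
# PT74/Reps: representatives of the parallel pairs

`exists_cov`: a finite set of vectors `S = -S` without `0` and with `2 n` elements is `{± W i | i : Fin n}` (induction on
`n`: remove `w` and `-w`); apply to `PN P` (`FPair.neg_mem`, `FN P` is by definition the set of `u` with `Facet P u`).
`exists_single`: otherwise `FN P` is symmetric and `count_symm` (`fn_finite`, `fn_span`), as in `pairs_ge` (PT56/FPair).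
-/

namespace Pool.PT74

open Set Filter Topology MeasureTheory
open scoped RealInnerProductSpace ENNReal
open Pool.PT56

variable {E : Type} [NormedAddCommGroup E] [InnerProductSpace ℝ E] [FiniteDimensional ℝ E]
  [MeasurableSpace E] [BorelSpace E]

private theorem reps_aux (n : ℕ) : ∀ (S : Set E), S.Finite → (0 : E) ∉ S → (∀ w ∈ S, -w ∈ S) →
    S.ncard = 2 * n →
    ∃ W : Fin n → E, (∀ i, W i ∈ S) ∧ ∀ w ∈ S, ∃ i, w = W i ∨ w = -W i := by
  induction n with
  | zero =>
    intro S hfin _ _ hc
    rw [mul_zero, Set.ncard_eq_zero hfin] at hc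
    refine ⟨Fin.elim0, fun i => i.elim0, ?_⟩
    intro w hw
    rw [hc] at hw
    exact absurd hw (notMem_empty w)
  | succ n ih =>
    intro S hfin h0 hneg hc
    have hne : S.Nonempty := by
      rw [Set.nonempty_iff_ne_empty]
      rintro rfl
      simp at hc
    obtain ⟨w, hw⟩ := hne
    have hwn : -w ∈ S := hneg w hw
    have hw0 : w ≠ -w := by
      intro h
      have h2 : (2 : ℝ) • w = 0 := by
        rw [two_smul]
        nth_rewrite 1 [h]
        exact neg_add_cancel _
      have h3 := (smul_eq_zero.mp h2).resolve_left two_ne_zero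
      exact h0 (h3 ▸ hw)
    have hsub : ({w, -w} : Set E) ⊆ S := by
      rintro x (rfl | rfl)
      · exact hw
      · exact hwn
    have hpair : ({w, -w} : Set E).ncard = 2 := Set.ncard_pair hw0
    have hcard : (S \ {w, -w}).ncard = 2 * n := by
      have h := Set.ncard_sdiff hsub (Set.toFinite _)
      rw [hpair, hc] at h
      omega
    obtain ⟨W, hW1, hW2⟩ := ih (S \ {w, -w}) (hfin.subset Set.sdiff_subset)
      (fun h => h0 h.1) (by
        rintro x ⟨hx, hx'⟩
        refine ⟨hneg x hx, ?_⟩
        rintro (h | h)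
        · exact hx' (Or.inr (by rw [mem_singleton_iff, ← h, neg_neg]))
        · exact hx' (Or.inl (neg_injective h))) hcard
    refine ⟨Fin.cons w W, ?_, ?_⟩
    · intro i
      refine Fin.cases ?_ (fun j => ?_) i
      · exact hw
      · exact (hW1 j).1
    · intro x hx
      by_cases h1 : x = w
      · exact ⟨0, Or.inl h1⟩
      by_cases h2 : x = -w
      · exact ⟨0, Or.inr h2⟩
      obtain ⟨j, hj⟩ := hW2 x ⟨hx, by
        rintro (h | h)
        · exact h1 h
        · exact h2 h⟩
      exact ⟨j.succ, hj⟩

theorem exists_cov {n : ℕ} {P : Set E} (hP : Polytope P) (h : (PN P).ncard = 2 * n) :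
    ∃ W : Fin n → E, Cov P W := by
  have hfin : (PN P).Finite := (fn_finite hP).subset (fun w hw => hw.1)
  have h0 : (0 : E) ∉ PN P := by
    intro h
    have := h.1.1
    simp at this
  obtain ⟨W, hW1, hW2⟩ := reps_aux n (PN P) hfin h0 (fun w hw => FPair.neg_mem hw) h
  exact ⟨W, fun i => ⟨(hW1 i).1, (hW1 i).2⟩, fun w h1 h2 => hW2 w ⟨h1, h2⟩⟩

theorem exists_single {n : ℕ} (hn : Module.finrank ℝ E = n + 2) {P : Set E} (hP : Polytope P)
    (h : (PN P).ncard = 2 * n) : ∃ u, Facet P u ∧ ¬ Facet P (-u) := by
  by_contra hcon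
  push Not at hcon
  have hEq : PN P = FN P := by
    ext w
    exact ⟨fun h => h.1, fun h => ⟨h, hcon w h⟩⟩
  have h0 : (0 : E) ∉ FN P := by
    intro h
    have := h.1
    simp at this
  have hc := count_symm (fn_finite hP) h0 (fun u hu => hcon u hu) (fn_span hP)
  rw [← hEq, h, hn] at hc
  omega

end Pool.PT74
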