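import Pool.Agent.PT74.Belt
import Pool.Agent.PT74.Contra
import Pool.Agent.PT74.Reps
import Pool.Agent.PT56.Sect
import Pool.Agent.PT56.PolyMain

set_option autoImplicit false
set_option linter.unusedSectionVars false

/-!
# PT74/Prod: the polytope is the product of a polygon and a box

`exists_cov`, `exists_single`, `exists_free`; `T` = `coords` (`box_span`); `a i = -spt P (-W i)`, `b i = spt P (W i)`
(`lt_spt` for an interior point gives `a i < b i`), `K = {y | ∀ t, cos t * y.1 + sin t * y.2 ≤ spt P (ww u v t)}`.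
`T '' P = K ×ˢ Icc a b` by `prod_sub`, `spt_le_belt`, `spt_le_belt'`.
`K` is the projection of `T '' P`: a convex hull of finitely many points with interior.  `Tiles K`: `tiles_image` and
`sect`.  `NoPar K`: `(p, q) = r (cos t, sin t)`, `r > 0`; two different points of `K` with maximal `p z.1 + q z.2` give
two points of `face P (ww u v t)` with different `⟪ww' u v t, x⟫` (same third coordinate in `Icc a b`), so
`Facet P (ww u v t)` by `facet_of_nonlevel` and `Free.rot`; same for `t + π`; `Free.no`.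
-/

namespace Pool.PT74

open Set Filter Topology MeasureTheory
open scoped RealInnerProductSpace ENNReal
open Pool.PT56

variable {E : Type} [NormedAddCommGroup E] [InnerProductSpace ℝ E] [FiniteDimensional ℝ E]
  [MeasurableSpace E] [BorelSpace E]

private theorem Prod_inner_ww (u v : E) (t : ℝ) (x : E) :
    ⟪ww u v t, x⟫ = Real.cos t * ⟪u, x⟫ + Real.sin t * ⟪v, x⟫ := by
  unfold ww
  rw [inner_add_left, inner_smul_left, inner_smul_left]
  simp

private theorem Prod_inner_ww' (u v : E) (t : ℝ) (x : E) :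
    ⟪ww' u v t, x⟫ = -Real.sin t * ⟪u, x⟫ + Real.cos t * ⟪v, x⟫ := by
  unfold ww'
  rw [inner_add_left, inner_smul_left, inner_smul_left]
  simp

/-- the factor `K` of a product `K ×ˢ Icc a b` that is a polytope -/
private theorem Prod_polytope_fst {n : ℕ} {K : Set (ℝ × ℝ)} {a b : Fin n → ℝ} (hab : ∀ i, a i < b i)
    (h : Polytope (K ×ˢ Icc a b)) : Polytope K := by
  have hne : (Icc a b).Nonempty := nonempty_Icc.mpr fun i => (hab i).le
  obtain ⟨⟨S, hS, hSe⟩, hi⟩ := h
  refine ⟨⟨Prod.fst '' S, hS.image _, ?_⟩, ?_⟩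
  · have h1 : Prod.fst '' (K ×ˢ Icc a b) = K := Set.fst_image_prod K hne
    have h2 := (LinearMap.fst ℝ (ℝ × ℝ) (Fin n → ℝ)).image_convexHull S
    rw [← hSe] at h2
    rw [← h1]
    exact h2
  · rw [interior_prod_eq] at hi
    exact hi.fst

/-- the factor `K` of a product `K ×ˢ Icc a b` that tiles -/
private theorem Prod_tiles_fst {n : ℕ} {K : Set (ℝ × ℝ)} {a b : Fin n → ℝ}
    (hK : Polytope K) (hi : (interior (K ×ˢ Icc a b)).Nonempty)
    (h : Tiles (K ×ˢ Icc a b)) : Tiles K := by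
  refine sect (ContinuousLinearMap.fst ℝ (ℝ × ℝ) (Fin n → ℝ))
    (ContinuousLinearMap.inl ℝ (ℝ × ℝ) (Fin n → ℝ)) (fun u => rfl)
    (K := K) (L := {x : (ℝ × ℝ) × (Fin n → ℝ) | x.2 ∈ Icc a b})
    hK.isCompact.isClosed hK.convex hK.2 ?_ ?_ ?_ ?_ ?_
  · exact isClosed_Icc.preimage continuous_snd
  · exact (convex_Icc a b).linear_preimage (LinearMap.snd ℝ (ℝ × ℝ) (Fin n → ℝ))
  · refine hi.mono (interior_mono ?_)
    intro x hx
    exact hx.2
  · intro x hx u
    simpa using hx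
  · exact h

/-- a maximal side of the polygon gives a facet -/
private theorem Prod_facet {n : ℕ} {P : Set E} (hP : Polytope P) (hT : Tiles P) {u v : E}
    (hv : Free P u v) {K : Set (ℝ × ℝ)} {a b : Fin n → ℝ} (hab : ∀ i, a i < b i)
    (T : E ≃ₗ[ℝ] (ℝ × ℝ) × (Fin n → ℝ)) (hTx : ∀ x, (T x).1 = (⟪u, x⟫, ⟪v, x⟫))
    (himg : T '' P = K ×ˢ Icc a b) (t : ℝ) {x y : ℝ × ℝ} (hx : x ∈ K) (hy : y ∈ K) (hxy : x ≠ y)
    (h1 : ∀ z ∈ K, Real.cos t * z.1 + Real.sin t * z.2 ≤ Real.cos t * x.1 + Real.sin t * x.2)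
    (h2 : ∀ z ∈ K, Real.cos t * z.1 + Real.sin t * z.2 ≤ Real.cos t * y.1 + Real.sin t * y.2) :
    Facet P (ww u v t) := by
  have ha : a ∈ Icc a b := ⟨le_refl _, fun i => (hab i).le⟩
  have hpre : ∀ z ∈ K, T.symm (z, a) ∈ P := by
    intro z hz
    have h3 : ((z, a) : (ℝ × ℝ) × (Fin n → ℝ)) ∈ T '' P := by
      rw [himg]; exact ⟨hz, ha⟩
    obtain ⟨w, hw, hwz⟩ := h3
    rw [← hwz, LinearEquiv.symm_apply_apply]
    exact hw
  have hK : ∀ z ∈ P, ((⟪u, z⟫, ⟪v, z⟫) : ℝ × ℝ) ∈ K := by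
    intro z hz
    have h3 : T z ∈ K ×ˢ Icc a b := by
      rw [← himg]; exact ⟨z, hz, rfl⟩
    rw [← hTx]
    exact h3.1
  have hin : ∀ z : ℝ × ℝ, ⟪u, T.symm (z, a)⟫ = z.1 ∧ ⟪v, T.symm (z, a)⟫ = z.2 := by
    intro z
    have h3 := hTx (T.symm (z, a))
    rw [LinearEquiv.apply_symm_apply] at h3
    have h4 : z = (⟪u, T.symm (z, a)⟫, ⟪v, T.symm (z, a)⟫) := h3
    exact ⟨(congrArg Prod.fst h4).symm, (congrArg Prod.snd h4).symm⟩
  have hface : ∀ x ∈ K, (∀ z ∈ K, Real.cos t * z.1 + Real.sin t * z.2 ≤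
      Real.cos t * x.1 + Real.sin t * x.2) → T.symm (x, a) ∈ face P (ww u v t) := by
    intro x hx hm
    refine ⟨hpre x hx, fun z hz => ?_⟩
    rw [Prod_inner_ww, Prod_inner_ww, (hin x).1, (hin x).2]
    exact hm _ (hK z hz)
  have hrot := hv.rot hP hT t
  refine facet_of_nonlevel hP hrot.nu hrot.nv hrot.uv hrot.gv (hface x hx h1) (hface y hy h2) ?_
  intro h3
  rw [Prod_inner_ww', Prod_inner_ww', (hin x).1, (hin x).2, (hin y).1, (hin y).2] at h3
  have h4 : Real.cos t * x.1 + Real.sin t * x.2 = Real.cos t * y.1 + Real.sin t * y.2 :=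
    le_antisymm (h2 x hx) (h1 y hy)
  have h5 := Real.sin_sq_add_cos_sq t
  apply hxy
  apply Prod.ext
  · have e : (Real.sin t ^ 2 + Real.cos t ^ 2) * x.1 = (Real.sin t ^ 2 + Real.cos t ^ 2) * y.1 := by
      linear_combination Real.cos t * h4 - Real.sin t * h3
    rwa [h5, one_mul, one_mul] at e
  · have e : (Real.sin t ^ 2 + Real.cos t ^ 2) * x.2 = (Real.sin t ^ 2 + Real.cos t ^ 2) * y.2 := by
      linear_combination Real.sin t * h4 + Real.cos t * h3
    rwa [h5, one_mul, one_mul] at e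

private theorem Prod_polar {p q : ℝ} (h : (p, q) ≠ (0 : ℝ × ℝ)) :
    ∃ r t : ℝ, 0 < r ∧ p = r * Real.cos t ∧ q = r * Real.sin t := by
  have hz : (⟨p, q⟩ : ℂ) ≠ 0 := by
    intro h0
    apply h
    have h1 := congrArg Complex.re h0
    have h2 := congrArg Complex.im h0
    simp only [Complex.zero_re, Complex.zero_im] at h1 h2
    exact Prod.ext h1 h2
  refine ⟨‖(⟨p, q⟩ : ℂ)‖, Complex.arg ⟨p, q⟩, norm_pos_iff.mpr hz, ?_, ?_⟩
  · have h1 := Complex.norm_mul_cos_arg (⟨p, q⟩ : ℂ)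
    exact h1.symm
  · have h1 := Complex.norm_mul_sin_arg (⟨p, q⟩ : ℂ)
    exact h1.symm

theorem prod_form {n : ℕ} (hn : Module.finrank ℝ E = n + 2) {P : Set E} (hP : Polytope P)
    (hT : Tiles P) (h : (PN P).ncard = 2 * n) :
    ∃ (T : E ≃ₗ[ℝ] (ℝ × ℝ) × (Fin n → ℝ)) (K : Set (ℝ × ℝ)) (a b : Fin n → ℝ),
      (∀ i, a i < b i) ∧ T '' P = K ×ˢ Icc a b ∧ Polytope K ∧ Tiles K ∧ NoPar K := by
  obtain ⟨W, hW⟩ := exists_cov hP h
  obtain ⟨u, hu, hu'⟩ := exists_single hn hP h
  obtain ⟨v, hv⟩ := exists_free hn hP hW hu hu'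
  obtain ⟨T, hTx⟩ := coords hn (box_span hP hT hW hu hu' hv)
  have hc := hP.compact
  let K : Set (ℝ × ℝ) := {y | ∀ t, Real.cos t * y.1 + Real.sin t * y.2 ≤ spt P (ww u v t)}
  let a : Fin n → ℝ := fun i => -spt P (-W i)
  let b : Fin n → ℝ := fun i => spt P (W i)
  have hab : ∀ i, a i < b i := by
    intro i
    obtain ⟨x, hx⟩ := hP.2
    have hW0 : W i ≠ 0 := by
      intro h0
      have := (hW.mem i).1.1
      rw [h0, norm_zero] at this
      exact zero_ne_one this
    have h1 := lt_spt hc hx hW0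
    have h2 := lt_spt hc hx (neg_ne_zero.mpr hW0)
    rw [inner_neg_left] at h2
    show -spt P (-W i) < spt P (W i)
    linarith
  have himg : T '' P = K ×ˢ Icc a b := by
    ext y
    constructor
    · rintro ⟨x, hx, rfl⟩
      rw [hTx]
      refine ⟨?_, ?_, ?_⟩
      · intro t
        have := spt_le hc hx (ww u v t)
        rw [Prod_inner_ww] at this
        exact this
      · intro i
        have := spt_le hc hx (-W i)
        rw [inner_neg_left] at this
        show -spt P (-W i) ≤ ⟪W i, x⟫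
        linarith
      · intro i
        exact spt_le hc hx (W i)
    · rintro ⟨hy1, hy2, hy3⟩
      have hTs : T (T.symm y) = y := T.apply_symm_apply y
      have e := hTx (T.symm y)
      rw [hTs] at e
      have e1 : y.1.1 = ⟪u, T.symm y⟫ := congrArg (fun z => z.1.1) e
      have e2 : y.1.2 = ⟪v, T.symm y⟫ := congrArg (fun z => z.1.2) e
      have e3 : ∀ i, y.2 i = ⟪W i, T.symm y⟫ := fun i => congrArg (fun z => z.2 i) e
      refine ⟨T.symm y, ?_, hTs⟩
      refine prod_sub hn hP hT hW hu hu' hv ?_ ?_ ?_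
      · intro t
        rw [Prod_inner_ww, ← e1, ← e2]
        exact hy1 t
      · intro i
        have h1 : y.2 i ≤ spt P (W i) := hy3 i
        rw [← e3 i]
        exact h1.trans (spt_le_belt hn hP hT hW hu hu' hv i)
      · intro i
        have h1 : -spt P (-W i) ≤ y.2 i := hy2 i
        have h2 := spt_le_belt' hn hP hT hW hu hu' hv i
        rw [inner_neg_left, ← e3 i]
        linarith
  have hpi : Polytope (K ×ˢ Icc a b) := by
    have h1 := polytope_image T.toContinuousLinearEquiv hP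
    have h2 : (T.toContinuousLinearEquiv : E → (ℝ × ℝ) × (Fin n → ℝ)) '' P = T '' P := rfl
    rw [h2, himg] at h1
    exact h1
  have hti : Tiles (K ×ˢ Icc a b) := by
    have h1 := (tiles_image T.toContinuousLinearEquiv P).2 hT
    have h2 : (T.toContinuousLinearEquiv : E → (ℝ × ℝ) × (Fin n → ℝ)) '' P = T '' P := rfl
    rw [h2, himg] at h1
    exact h1
  have hKp : Polytope K := Prod_polytope_fst hab hpi
  refine ⟨T, K, a, b, hab, himg, hKp, Prod_tiles_fst hKp hpi.2 hti, ?_⟩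
  intro p q hpq x hx y hy x' hx' y' hy' hxy hxy' h1 h2 h3 h4
  obtain ⟨r, t, hr, hp, hq⟩ := Prod_polar hpq
  have hT1 : ∀ x, (T x).1 = (⟪u, x⟫, ⟪v, x⟫) := fun x => by rw [hTx]
  have key : ∀ z w : ℝ × ℝ, p * z.1 + q * z.2 ≤ p * w.1 + q * w.2 →
      Real.cos t * z.1 + Real.sin t * z.2 ≤ Real.cos t * w.1 + Real.sin t * w.2 := by
    intro z w hzw
    rw [hp, hq] at hzw
    have h5 : r * (Real.cos t * z.1 + Real.sin t * z.2) ≤
        r * (Real.cos t * w.1 + Real.sin t * w.2) := by linarith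
    exact le_of_mul_le_mul_left h5 hr
  have f1 : Facet P (ww u v t) := Prod_facet hP hT hv hab T hT1 himg t hx hy hxy
    (fun z hz => key z x (h1 z hz)) (fun z hz => key z y (h2 z hz))
  have key' : ∀ z w : ℝ × ℝ, p * w.1 + q * w.2 ≤ p * z.1 + q * z.2 →
      Real.cos (t + Real.pi) * z.1 + Real.sin (t + Real.pi) * z.2 ≤
        Real.cos (t + Real.pi) * w.1 + Real.sin (t + Real.pi) * w.2 := by
    intro z w hzw
    have := key w z hzw
    rw [Real.cos_add_pi, Real.sin_add_pi]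
    linarith
  have f2 : Facet P (ww u v (t + Real.pi)) :=
    Prod_facet hP hT hv hab T hT1 himg (t + Real.pi) hx' hy' hxy'
      (fun z hz => key' z x' (h3 z hz)) (fun z hz => key' z y' (h4 z hz))
  have e : ww u v (t + Real.pi) = -ww u v t := by
    unfold ww
    rw [Real.cos_add_pi, Real.sin_add_pi]
    module
  rw [e] at f2
  exact hv.no (ww u v t) (Submodule.mem_span_pair.mpr ⟨_, _, rfl⟩) ⟨f1, f2⟩

end Pool.PT74
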