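import Pool.Agent.PT74.GBase
import Pool.Agent.PT56.ToNF
import Pool.Agent.PT56.FConv
import Pool.Agent.PT56.Aff

set_option autoImplicit false
set_option linter.unusedSectionVars false

/-!
# PT74/Suf: the shapes tile

`tiles_KK`: if `1 < s + t`, `KK s t = body v`, `v 0 = (0, 0)`, `v 1 = (1, 0)`, `v 2 = (s, t)`, `v 3 = (0, 1)` (`ZMod 4`,
`IsPoly v`); if `s + t = 1` it is the triangle `(0, 0), (1, 0), (0, 1)` (`ZMod 3`, `(s, t)` is on a side);
`tiles_of_good` (PT56/ToNF).
`KK_eq`: the inequalities.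
`suf_tiles`: `tiles_prod`, `tiles_cube` (PT56/FConv), `tiles_affineEquiv` (PT56/Aff).
-/

namespace Pool.PT74

open Set Filter Topology
open Pool.PT56

/-- convex combinations of three points -/
private theorem suf_three {S : Set (ℝ × ℝ)} (hS : Convex ℝ S) {x y z : ℝ × ℝ} (hx : x ∈ S)
    (hy : y ∈ S) (hz : z ∈ S) {a b c : ℝ} (ha : 0 ≤ a) (hb : 0 ≤ b) (hc : 0 ≤ c)
    (h : a + b + c = 1) : a • x + b • y + c • z ∈ S := by
  have h3 := hS.sum_mem (t := Finset.univ) (w := ![a, b, c]) (z := ![x, y, z])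
    (by intro i _; fin_cases i <;> simp <;> assumption)
    (by rw [Fin.sum_univ_three]; exact h)
    (by intro i _; fin_cases i <;> simp <;> assumption)
  rw [Fin.sum_univ_three] at h3
  exact h3

/-- half planes are convex -/
private theorem suf_half (a b c : ℝ) : Convex ℝ {p : ℝ × ℝ | a * p.1 + b * p.2 ≤ c} := by
  intro x hx y hy u v hu hv huv
  change a * (u * x.1 + v * y.1) + b * (u * x.2 + v * y.2) ≤ c
  have hx' : a * x.1 + b * x.2 ≤ c := hx
  have hy' : a * y.1 + b * y.2 ≤ c := hy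
  have h1 := mul_le_mul_of_nonneg_left hx' hu
  have h2 := mul_le_mul_of_nonneg_left hy' hv
  have h3 : u * c + v * c = c := by rw [← add_mul, huv, one_mul]
  linarith

theorem KK_eq {s t : ℝ} (hs : 0 < s) (ht : 0 < t) (hst : 1 ≤ s + t) :
    KK s t = {p | 0 ≤ p.1 ∧ 0 ≤ p.2 ∧ t * p.1 + (1 - s) * p.2 ≤ t ∧
      (1 - t) * p.1 + s * p.2 ≤ s} := by
  have hset : {p : ℝ × ℝ | 0 ≤ p.1 ∧ 0 ≤ p.2 ∧ t * p.1 + (1 - s) * p.2 ≤ t ∧
      (1 - t) * p.1 + s * p.2 ≤ s} =
      ({p : ℝ × ℝ | (-1) * p.1 + 0 * p.2 ≤ 0} ∩ {p : ℝ × ℝ | 0 * p.1 + (-1) * p.2 ≤ 0}) ∩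
      ({p : ℝ × ℝ | t * p.1 + (1 - s) * p.2 ≤ t} ∩
        {p : ℝ × ℝ | (1 - t) * p.1 + s * p.2 ≤ s}) := by
    ext p
    constructor
    · rintro ⟨h1, h2, h3, h4⟩
      refine ⟨⟨?_, ?_⟩, h3, h4⟩
      · change (-1) * p.1 + 0 * p.2 ≤ 0
        linarith
      · change 0 * p.1 + (-1) * p.2 ≤ 0
        linarith
    · rintro ⟨⟨h1, h2⟩, h3, h4⟩
      have h1' : (-1) * p.1 + 0 * p.2 ≤ 0 := h1
      have h2' : 0 * p.1 + (-1) * p.2 ≤ 0 := h2
      exact ⟨by linarith, by linarith, h3, h4⟩
  apply Set.Subset.antisymm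
  · apply convexHull_min
    · rintro p (rfl | rfl | rfl | rfl)
      · exact ⟨le_rfl, le_rfl, by simp only; linarith, by simp only; linarith⟩
      · exact ⟨zero_le_one, le_rfl, by simp only; linarith, by simp only; linarith⟩
      · exact ⟨le_rfl, zero_le_one, by simp only; linarith, by simp only; linarith⟩
      · refine ⟨hs.le, ht.le, ?_, ?_⟩
        · simp only
          have : t * s + (1 - s) * t = t := by ring
          exact this.le
        · simp only
          have : (1 - t) * s + s * t = s := by ring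
          exact this.le
    · rw [hset]
      exact ((suf_half _ _ _).inter (suf_half _ _ _)).inter
        ((suf_half _ _ _).inter (suf_half _ _ _))
  · rintro ⟨x, y⟩ ⟨h1, h2, h3, h4⟩
    simp only at h1 h2 h3 h4
    have hc : Convex ℝ (KK s t) := convex_convexHull ℝ _
    have hO : ((0, 0) : ℝ × ℝ) ∈ KK s t := subset_convexHull ℝ _ (by simp)
    have hA : ((1, 0) : ℝ × ℝ) ∈ KK s t := subset_convexHull ℝ _ (by simp)
    have hB : ((0, 1) : ℝ × ℝ) ∈ KK s t := subset_convexHull ℝ _ (by simp)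
    have hC : ((s, t) : ℝ × ℝ) ∈ KK s t := subset_convexHull ℝ _ (by simp)
    rcases le_total (s * y) (t * x) with h | h
    · -- below the diagonal
      have e1 : 0 ≤ x - s * (y / t) := by
        have : s * (y / t) ≤ x := by
          rw [← mul_div_assoc, div_le_iff₀ ht]; linarith
        linarith
      have e2 : 0 ≤ 1 - (x - s * (y / t)) - y / t := by
        have : (x - s * (y / t)) + y / t ≤ 1 := by
          have h5 : (x - s * (y / t)) + y / t = (t * x + (1 - s) * y) / t := by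
            field_simp; ring
          rw [h5, div_le_iff₀ ht]; linarith
        linarith
      have := suf_three hc hO hA hC e2 e1 (div_nonneg h2 ht.le) (by ring)
      have he : (1 - (x - s * (y / t)) - y / t) • ((0, 0) : ℝ × ℝ) +
          (x - s * (y / t)) • ((1, 0) : ℝ × ℝ) + (y / t) • ((s, t) : ℝ × ℝ) = (x, y) := by
        apply Prod.ext
        · simp only [Prod.fst_add, Prod.smul_fst, smul_eq_mul]
          ring
        · simp only [Prod.snd_add, Prod.smul_snd, smul_eq_mul]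
          field_simp
          ring
      rw [he] at this
      exact this
    · -- above the diagonal
      have e1 : 0 ≤ y - t * (x / s) := by
        have : t * (x / s) ≤ y := by
          rw [← mul_div_assoc, div_le_iff₀ hs]; linarith
        linarith
      have e2 : 0 ≤ 1 - (y - t * (x / s)) - x / s := by
        have : (y - t * (x / s)) + x / s ≤ 1 := by
          have h5 : (y - t * (x / s)) + x / s = ((1 - t) * x + s * y) / s := by
            field_simp; ring
          rw [h5, div_le_iff₀ hs]; linarith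
        linarith
      have := suf_three hc hO hB hC e2 e1 (div_nonneg h1 hs.le) (by ring)
      have he : (1 - (y - t * (x / s)) - x / s) • ((0, 0) : ℝ × ℝ) +
          (y - t * (x / s)) • ((0, 1) : ℝ × ℝ) + (x / s) • ((s, t) : ℝ × ℝ) = (x, y) := by
        apply Prod.ext
        · simp only [Prod.fst_add, Prod.smul_fst, smul_eq_mul]
          field_simp
          ring
        · simp only [Prod.snd_add, Prod.smul_snd, smul_eq_mul]
          ring
      rw [he] at this
      exact this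

/-- the vertices -/
private def suf_v (s t : ℝ) : ZMod 4 → ℝ × ℝ := ![(0, 0), (1, 0), (s, t), (0, 1)]

private theorem suf_poly {s t : ℝ} (hs : 0 < s) (ht : 0 < t) (hst : 1 < s + t) :
    IsPoly (suf_v s t) := by
  refine ⟨by norm_num, ?_⟩
  intro i j h1 h2
  have v0 : suf_v s t 0 = (0, 0) := rfl
  have v1 : suf_v s t 1 = (1, 0) := rfl
  have v2 : suf_v s t 2 = (s, t) := rfl
  have v3 : suf_v s t 3 = (0, 1) := rfl
  have c1 : (0 : ZMod 4) + 1 = 1 := rfl
  have c2 : (1 : ZMod 4) + 1 = 2 := rfl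
  have c3 : (2 : ZMod 4) + 1 = 3 := rfl
  have c4 : (3 : ZMod 4) + 1 = 0 := rfl
  have hi : ∀ k : ZMod 4, k = 0 ∨ k = 1 ∨ k = 2 ∨ k = 3 := by decide
  rcases hi i with rfl | rfl | rfl | rfl <;> rcases hi j with rfl | rfl | rfl | rfl
  · exact absurd rfl h1
  · exact absurd rfl h2
  · rw [c1, v0, v1, v2]
    simp only [det, Prod.fst_sub, Prod.snd_sub]
    nlinarith
  · rw [c1, v0, v1, v3]
    simp only [det, Prod.fst_sub, Prod.snd_sub]
    norm_num
  · rw [c2, v0, v1, v2]
    simp only [det, Prod.fst_sub, Prod.snd_sub]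
    nlinarith
  · exact absurd rfl h1
  · exact absurd rfl h2
  · rw [c2, v1, v2, v3]
    simp only [det, Prod.fst_sub, Prod.snd_sub]
    nlinarith
  · rw [c3, v0, v2, v3]
    simp only [det, Prod.fst_sub, Prod.snd_sub]
    nlinarith
  · rw [c3, v1, v2, v3]
    simp only [det, Prod.fst_sub, Prod.snd_sub]
    nlinarith
  · exact absurd rfl h1
  · exact absurd rfl h2
  · exact absurd rfl h2
  · rw [c4, v0, v1, v3]
    simp only [det, Prod.fst_sub, Prod.snd_sub]
    norm_num
  · rw [c4, v0, v2, v3]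
    simp only [det, Prod.fst_sub, Prod.snd_sub]
    nlinarith
  · exact absurd rfl h1

private theorem suf_body (s t : ℝ) : body (suf_v s t) = KK s t := by
  have hr : Set.range (suf_v s t) = {(0, 0), (1, 0), (0, 1), (s, t)} := by
    ext p
    constructor
    · rintro ⟨i, rfl⟩
      have hi : ∀ k : ZMod 4, k = 0 ∨ k = 1 ∨ k = 2 ∨ k = 3 := by decide
      rcases hi i with rfl | rfl | rfl | rfl
      · left; rfl
      · right; left; rfl
      · right; right; right; rfl
      · right; right; left; rfl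
    · rintro (rfl | rfl | rfl | rfl)
      · exact ⟨0, rfl⟩
      · exact ⟨1, rfl⟩
      · exact ⟨3, rfl⟩
      · exact ⟨2, rfl⟩
  rw [body, hr, KK]

theorem tiles_KK {s t : ℝ} (hs : 0 < s) (ht : 0 < t) (hst : 1 ≤ s + t) : Tiles (KK s t) := by
  rcases hst.lt_or_eq with h | h
  · rw [← suf_body]
    exact tiles_of_good (suf_poly hs ht h) (Or.inl (by norm_num))
  · have he : KK s t = {x : ℝ × ℝ | 0 ≤ x.1 ∧ 0 ≤ x.2 ∧ x.1 + x.2 ≤ 1} := by
      rw [KK_eq hs ht hst]
      have e1 : 1 - s = t := by linarith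
      have e2 : 1 - t = s := by linarith
      rw [e1, e2]
      ext p
      constructor
      · rintro ⟨h1, h2, h3, -⟩
        refine ⟨h1, h2, ?_⟩
        by_contra hcon
        push Not at hcon
        nlinarith
      · rintro ⟨h1, h2, h3⟩
        exact ⟨h1, h2, by nlinarith, by nlinarith⟩
    rw [he]
    exact tiles_triangle

private theorem suf_csym (n : ℕ) : CSym (Icc (0 : Fin n → ℝ) 1) := by
  refine ⟨fun _ => 1, fun x hx => ⟨fun i => ?_, fun i => ?_⟩⟩
  · have := hx.2 i
    simp only [Pi.sub_apply, Pi.zero_apply, Pi.one_apply] at this ⊢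
    linarith
  · have := hx.1 i
    simp only [Pi.sub_apply, Pi.zero_apply, Pi.one_apply] at this ⊢
    linarith

private theorem suf_cube (n : ℕ) : Tiles (Icc (0 : Fin n → ℝ) 1) := by
  have he : Icc (0 : Fin n → ℝ) 1 = {x : Fin n → ℝ | ∀ i, 0 ≤ x i ∧ x i ≤ 1} := by
    ext x
    exact ⟨fun h i => ⟨h.1 i, h.2 i⟩, fun h => ⟨fun i => (h i).1, fun i => (h i).2⟩⟩
  rw [he]
  exact tiles_cube n

theorem suf_tiles {E : Type} [NormedAddCommGroup E] [NormedSpace ℝ E] {n : ℕ} {s t : ℝ}
    (hs : 0 < s) (ht : 0 < t) (hst : 1 ≤ s + t)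
    (f : ((ℝ × ℝ) × (Fin n → ℝ)) ≃ᵃ[ℝ] E) : Tiles (f '' (KK s t ×ˢ Icc (0 : Fin n → ℝ) 1)) :=
  (tiles_affineEquiv f _).2 (tiles_prod (tiles_KK hs ht hst) (suf_cube n) (suf_csym n))

end Pool.PT74
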